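import Pool.Agent.Lib_helper20.TF.DefsB
import Pool.Agent.Lib_helper57.AFF.Conc

set_option autoImplicit false

namespace Pool.Agent.TD.TF

open Pool.Agent.CK Pool.Agent.TD.IS

/-- replace the questions `true :: v` by the branch of the constant `C v`, the question `[]` by the
branch `false`, and `false :: w` by `w` -/
def bs_low (C : Str → Bool) : DT Str → DT Str
  | DT.leaf b => DT.leaf b
  | DT.node [] n0 _ => bs_low C n0
  | DT.node (false :: w) n0 n1 => DT.node w (bs_low C n0) (bs_low C n1)
  | DT.node (true :: v) n0 n1 => if C v = true then bs_low C n1 else bs_low C n0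

theorem bs_eval (C : Str → Bool) (O O' : Lang) (h0 : O' [] = false)
    (h1 : ∀ w, O' (false :: w) = O w) (h2 : ∀ v, O' (true :: v) = C v) (t : DT Str) :
    (bs_low C t).eval O = t.eval O' := by
  induction t with
  | leaf b => rfl
  | node w n0 n1 ih0 ih1 =>
    match w with
    | [] =>
      rw [bs_low, DT.eval_node, h0, ih0]
      simp
    | false :: w =>
      rw [bs_low, DT.eval_node, DT.eval_node, h1, ih0, ih1]
    | true :: v =>
      rw [bs_low, DT.eval_node, h2]
      split_ifs <;> assumption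

theorem bs_depth (C : Str → Bool) (t : DT Str) : (bs_low C t).depth ≤ t.depth := by
  induction t with
  | leaf b => exact le_rfl
  | node w n0 n1 ih0 ih1 =>
    match w with
    | [] => rw [bs_low, DT.depth_node]; omega
    | false :: w => rw [bs_low, DT.depth_node, DT.depth_node]; omega
    | true :: v =>
      rw [bs_low, DT.depth_node]
      split_ifs <;> omega

theorem bs_allQ (C : Str → Bool) (ℓ : ℕ) (t : DT Str) (h : t.AllQ fun w => w.length ≤ ℓ) :
    (bs_low C t).AllQ fun w => w.length ≤ ℓ := by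
  induction t with
  | leaf b => trivial
  | node w n0 n1 ih0 ih1 =>
    obtain ⟨hw, h0, h1⟩ := h
    match w with
    | [] => rw [bs_low]; exact ih0 h0
    | false :: w =>
      rw [bs_low]
      refine ⟨?_, ih0 h0, ih1 h1⟩
      rw [List.length_cons] at hw
      omega
    | true :: v =>
      rw [bs_low]
      split_ifs
      · exact ih1 h1
      · exact ih0 h0

theorem bs_sD : sD 0 = 2 := by
  unfold sD su
  simp

/-- BS -/
theorem baseQ
    (BASE : ∀ (n0 Nh : ℕ), (∀ n, n0 ≤ n → NumN n) → ∀ Fm : Fam, Bdd n0 0 Fm →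
      (∀ n, Nh < n → Fm n = ∅) → ∃ S : Sec, Def n0 0 S (orc S fun _ _ => []) Fm)
    (M : Msk) (R : Lang) {n0 Nh : ℕ} (hN : ∀ n, n0 ≤ n → NumQ n) (Fm : Fam)
    (hB : BddQ n0 0 Fm) (hE : ∀ n, Nh < n → Fm n = ∅) :
    ∃ S : Sec, DefX n0 (DelQ 0) S (M.mx (sD 0) (orc S fun _ _ => []) R) Fm := by
  set C : Str → Bool := fun v => AFF.mix M.T M.P (sD 0) (fun _ => false) R (true :: v) with hC
  set F : ∀ n, (X (2 * n) → DT Str) → (X (2 * n) → DT Str) := fun n A x => bs_low C (A x) with hF
  have hmx : ∀ (O : Lang) (t : DT Str), (bs_low C t).eval O = t.eval (M.mx (sD 0) O R) := by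
    intro O t
    apply bs_eval
    · rfl
    · intro w; rfl
    · intro v
      show AFF.mix M.T M.P (sD 0) O R (true :: v) = C v
      apply AFF.mix_congr
      · intro w hw; rw [bs_sD] at hw; omega
      · intro w _; rfl
  have hBdd : Bdd n0 0 (fun n => F n '' Fm n) := by
    intro n hn
    obtain ⟨hc, hA⟩ := hB n hn
    have hQ := hN n hn
    have h1 := card_mono (card_image (F n) hc) (Set.Subset.refl _)
      (Nat.pow_le_pow_right (by norm_num) hQ.hA)
    refine ⟨h1.1, h1.2, ?_⟩
    rintro A' ⟨A, hAm, rfl⟩ x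
    obtain ⟨hd, hq⟩ := hA A hAm x
    have e1 : dQ 0 n ≤ dd n := by
      have : dQ 0 n = 2 ^ EQ n := by unfold dQ EQ; rw [Nat.sub_zero]
      rw [this]
      exact Nat.pow_le_pow_right (by norm_num) hQ.hE
    have e2 : ddQ n ≤ dd n := by
      refine Nat.pow_le_pow_right (by norm_num) (le_trans ?_ hQ.hE)
      unfold EQ
      exact Nat.le_add_right _ _
    refine ⟨(bs_depth C (A x)).trans (hd.trans e1), ?_⟩
    exact (bs_allQ C (ddQ n) (A x) hq).mono fun w hw => hw.trans e2
  obtain ⟨S, hS⟩ := BASE n0 Nh (fun n hn => (hN n hn).old) (fun n => F n '' Fm n) hBdd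
    (fun n hn => by simp only [hE n hn, Set.image_empty])
  refine ⟨S, fun n hn A hA => ?_⟩
  have h1 := hS n hn (F n A) ⟨A, hA, rfl⟩
  have h2 : hits n (vv S n) (F n A) (orc S fun _ _ => []) =
      hits n (vv S n) A (M.mx (sD 0) (orc S fun _ _ => []) R) := by
    unfold hits
    congr 1
    apply Finset.filter_congr
    intro x _
    rw [← hmx]
  rw [h2] at h1
  refine lt_of_le_of_lt (Nat.mul_le_mul_right _ ?_) h1
  unfold DelQ Del
  exact Nat.pow_le_pow_right (by norm_num) (by simpa using (hN n hn).hDel)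

end Pool.Agent.TD.TF
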