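import Pool.Agent.Lib_helper20.TF.DefsB
import Pool.Agent.Lib_helper57.AFF.Conc
import Pool.Agent.Lib_helper20.MF.CSC
import Pool.Agent.Lib_helper64.TDF.CDB

/-!
# MSK, block CA: number of simulations
-/

set_option autoImplicit false

namespace Pool.Agent.TD.TF

open Pool.Agent.CK Pool.Agent.TD.IS

/-- relevance of a stage for a level -/
theorem ca_rel (k n : ℕ) (h : k < KQ n) : sD k ≤ ddQ n := by
  have hL : LamQ n ≠ 0 := Nat.succ_ne_zero _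
  revert h
  unfold KQ sD ddQ su
  rw [Nat.pow_le_pow_iff_right (by norm_num : 1 < 2), ← Nat.sqrt_lt', Nat.lt_succ_iff]
  exact (Nat.le_log_iff_pow_le (by norm_num) hL).1

theorem ca_pow (m : ℕ) : 3 * m + 5 ≤ 2 ^ (m + 3) := by
  induction m with
  | zero => norm_num
  | succ m ih =>
    have h : 2 ^ (m + 1 + 3) = 2 * 2 ^ (m + 3) := by ring
    omega

theorem ca_n (n : ℕ) : n + 3 ≤ 2 ^ (n / 3 + 3) := by
  have := ca_pow (n / 3)
  omega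

theorem ca_dQ (k n : ℕ) : dQ k n ≤ 2 ^ EQ n := by
  unfold dQ EQ
  refine Nat.pow_le_pow_right (by norm_num) (Nat.add_le_add_left ?_ _)
  exact Nat.mul_le_mul_right _ (Nat.sub_le _ _)

theorem ca_dQ' {k n : ℕ} (hk : k < KQ n) : 256 * dQ (k + 1) n ≤ 2 ^ EQ n := by
  unfold dQ EQ
  have h1 : LamQ n + (KQ n - (k + 1)) * (2 * LamQ n + 8) + 8 ≤
      LamQ n + KQ n * (2 * LamQ n + 8) := by
    have h2 : (KQ n - (k + 1) + 1) * (2 * LamQ n + 8) ≤ KQ n * (2 * LamQ n + 8) :=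
      Nat.mul_le_mul_right _ (by omega)
    have h3 : (KQ n - (k + 1) + 1) * (2 * LamQ n + 8) =
        (KQ n - (k + 1)) * (2 * LamQ n + 8) + (2 * LamQ n + 8) := by ring
    omega
  calc 256 * 2 ^ (LamQ n + (KQ n - (k + 1)) * (2 * LamQ n + 8)) =
        2 ^ (LamQ n + (KQ n - (k + 1)) * (2 * LamQ n + 8) + 8) := by rw [pow_add _ _ 8]; ring
    _ ≤ _ := Nat.pow_le_pow_right (by norm_num) h1

/-- the numbers of the table stage -/
theorem ca_num1 (a E L s q T d : ℕ) (h : s + q + 3 ≤ 2 ^ L) (hT : T ≤ 2 ^ (a + E + 1))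
    (hd : d ≤ 2 ^ E) :
    2 ^ a + ((s + (q + 1) + 1) * T + (q + 1 + 1) * d) ≤ 2 ^ (a + (E + L + 6)) := by
  have h1 : (s + (q + 1) + 1) * T ≤ 2 ^ L * 2 ^ (a + E + 1) := Nat.mul_le_mul (by omega) hT
  have h2 : (q + 1 + 1) * d ≤ 2 ^ L * 2 ^ E := Nat.mul_le_mul (by omega) hd
  have h3 : 2 ^ L * 2 ^ (a + E + 1) ≤ 2 ^ (a + (E + L + 4)) := by
    rw [← pow_add]
    exact Nat.pow_le_pow_right (by norm_num) (by omega)
  have h4 : 2 ^ L * 2 ^ E ≤ 2 ^ (a + (E + L + 4)) := by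
    rw [← pow_add]
    exact Nat.pow_le_pow_right (by norm_num) (by omega)
  have h5 : 2 ^ a ≤ 2 ^ (a + (E + L + 4)) := Nat.pow_le_pow_right (by norm_num) (by omega)
  have h6 : 2 ^ (a + (E + L + 6)) = 4 * 2 ^ (a + (E + L + 4)) := by
    rw [show a + (E + L + 6) = a + (E + L + 4) + 2 by ring, pow_add _ _ 2]
    ring
  omega

theorem card_simQ (k n : ℕ) (Fm : Set (X (2 * n) → DT Str)) (h5 : 5 ≤ sj k)
    (h2 : 2 * sj k ≤ su k) (hk : k < KQ n) (hF : CardBd Fm (2 ^ aM k n)) :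
    CardBd (SimQ k n Fm) (2 ^ (aM k n + (EQ n + LamQ n + 6))) := by
  have hfit : sM k + qb k + 3 ≤ 2 ^ LamQ n := (fits k h5 h2).trans (ca_rel k n hk)
  have hZQ : Fintype.card (Z k × Q k) ≤ 2 ^ (sM k + (qb k + 1)) := by
    rw [Fintype.card_prod, pow_add]
    exact Nat.mul_le_mul (card_Z k) (card_Q k)
  have h1 := card_image (fun p : (X (2 * n) → DT Str) × (List (Z k × Q k) × List (Q k)) =>
      (fun x => simI (stgQ k) [] (p.1 x) p.2.1 p.2.2))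
    (card_prod hF (card_prod (card_lists hZQ (sT k n)) (card_lists (card_Q k) (dQ k n))))
  have hT : sT k n ≤ 2 ^ (aM k n + EQ n + 1) := by
    have h3 : n + 3 ≤ 2 ^ aM k n := by
      refine (ca_n n).trans (Nat.pow_le_pow_right (by norm_num) ?_)
      unfold aM aQ
      rw [if_pos hk]
      omega
    unfold sT rT
    calc (2 ^ aM k n + n + 3) * dQ k n ≤ (2 * 2 ^ aM k n) * 2 ^ EQ n :=
          Nat.mul_le_mul (by omega) (ca_dQ k n)
      _ = 2 ^ (aM k n + EQ n + 1) := by rw [pow_succ, pow_add]; ring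
  refine card_mono h1 ?_ (ca_num1 (aM k n) (EQ n) (LamQ n) (sM k) (qb k) _ _ hfit hT (ca_dQ k n))
  rintro A' ⟨A, hA, ρ, hρ, r, hr, rfl⟩
  exact ⟨(A, (ρ, r)), ⟨hA, hρ, hr.le⟩, rfl⟩

/-- the numbers of the mask stage -/
theorem ca_num2 (a E L s g d : ℕ) (hs : s ≤ 2 ^ (a + 3) * d) (hg : g ≤ 2 ^ (2 * L + 7) * s)
    (hd : 256 * d ≤ 2 ^ E) :
    2 ^ a + ((2 ^ L + 2) * s + ((2 ^ L + 2) * g + 2 * d)) ≤ 2 ^ (a + (E + 3 * L + 10)) := by
  have hL : 2 ^ L + 2 ≤ 2 ^ (L + 2) := by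
    have h1 : 2 ^ (L + 2) = 4 * 2 ^ L := by rw [pow_add]; ring
    have h2 : 1 ≤ 2 ^ L := Nat.one_le_two_pow
    omega
  obtain ⟨P, hP⟩ : ∃ P, P = 2 ^ (a + (E + 3 * L + 4)) := ⟨_, rfl⟩
  have hs' : 256 * s ≤ 2 ^ (a + 3 + E) := by
    calc 256 * s ≤ 256 * (2 ^ (a + 3) * d) := Nat.mul_le_mul_left _ hs
      _ = 2 ^ (a + 3) * (256 * d) := by ring
      _ ≤ 2 ^ (a + 3) * 2 ^ E := Nat.mul_le_mul_left _ hd
      _ = 2 ^ (a + 3 + E) := by rw [pow_add _ _ E]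
  have hg' : 256 * g ≤ 2 ^ (2 * L + 7 + (a + 3 + E)) := by
    calc 256 * g ≤ 256 * (2 ^ (2 * L + 7) * s) := Nat.mul_le_mul_left _ hg
      _ = 2 ^ (2 * L + 7) * (256 * s) := by ring
      _ ≤ 2 ^ (2 * L + 7) * 2 ^ (a + 3 + E) := Nat.mul_le_mul_left _ hs'
      _ = _ := by rw [← pow_add]
  have h1 : 256 * ((2 ^ L + 2) * s) ≤ 256 * P := by
    calc 256 * ((2 ^ L + 2) * s) = (2 ^ L + 2) * (256 * s) := by ring
      _ ≤ 2 ^ (L + 2) * 2 ^ (a + 3 + E) := Nat.mul_le_mul hL hs'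
      _ = 2 ^ (L + 2 + (a + 3 + E)) := by rw [← pow_add]
      _ ≤ 2 ^ (8 + (a + (E + 3 * L + 4))) := Nat.pow_le_pow_right (by norm_num) (by omega)
      _ = 256 * P := by rw [hP, pow_add]; norm_num
  have h2 : 256 * ((2 ^ L + 2) * g) ≤ 256 * P := by
    calc 256 * ((2 ^ L + 2) * g) = (2 ^ L + 2) * (256 * g) := by ring
      _ ≤ 2 ^ (L + 2) * 2 ^ (2 * L + 7 + (a + 3 + E)) := Nat.mul_le_mul hL hg'
      _ = 2 ^ (L + 2 + (2 * L + 7 + (a + 3 + E))) := by rw [← pow_add]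
      _ ≤ 2 ^ (8 + (a + (E + 3 * L + 4))) := Nat.pow_le_pow_right (by norm_num) (by omega)
      _ = 256 * P := by rw [hP, pow_add]; norm_num
  have h3 : 2 * d ≤ P := by
    have h4 : 2 ^ E ≤ P := by
      rw [hP]
      exact Nat.pow_le_pow_right (by norm_num) (by omega)
    omega
  have h5 : 2 ^ a ≤ P := by
    rw [hP]
    exact Nat.pow_le_pow_right (by norm_num) (by omega)
  have h6 : 2 ^ (a + (E + 3 * L + 10)) = 64 * P := by
    rw [hP, show a + (E + 3 * L + 10) = a + (E + 3 * L + 4) + 6 by ring, pow_add _ _ 6]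
    ring
  omega

theorem card_mask (M : Msk) (k n : ℕ) (Fm : Set (X (2 * n) → DT Str)) (hk : k < KQ n)
    (hF : CardBd Fm (2 ^ aQ (k + 1) n)) : CardBd (MaskC M k n Fm) (2 ^ aM k n) := by
  have h1 := (M.ls (sD k) (sD (k + 1))).card_simC (ddQ n) (sQ k n) (gQ k n) (dQ (k + 1) n)
    (dQ k n) (2 ^ aQ (k + 1) n) Fm hF
  unfold MaskC
  refine card_mono h1 (fun A hA => hA) ?_
  have e : aM k n = aQ (k + 1) n + (EQ n + 3 * LamQ n + 10) := by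
    unfold aM
    rw [if_pos hk]
  rw [e]
  refine ca_num2 _ _ _ _ _ _ ?_ ?_ (ca_dQ' hk)
  · unfold sQ
    have h2 : 2 ^ (n / 3 + 3) ≤ 2 ^ (aQ (k + 1) n + 1) := by
      refine Nat.pow_le_pow_right (by norm_num) ?_
      unfold aQ
      omega
    have h3 := ca_n n
    have h4 : 2 ^ (aQ (k + 1) n + 1) = 2 * 2 ^ aQ (k + 1) n := by rw [pow_succ]; ring
    calc 2 * ((2 ^ aQ (k + 1) n + n + 2 + 1) * dQ (k + 1) n) ≤
          2 * ((4 * 2 ^ aQ (k + 1) n) * dQ (k + 1) n) :=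
          Nat.mul_le_mul_left _ (Nat.mul_le_mul_right _ (by omega))
      _ = 2 ^ (aQ (k + 1) n + 3) * dQ (k + 1) n := by rw [pow_add _ _ 3]; ring
  · unfold gQ btQ ddQ
    have h2 : 2 ^ LamQ n + 2 ≤ 3 * 2 ^ LamQ n := by
      have : 1 ≤ 2 ^ LamQ n := Nat.one_le_two_pow
      omega
    have h3 : (2 ^ LamQ n + 2) ^ 2 ≤ (3 * 2 ^ LamQ n) ^ 2 := Nat.pow_le_pow_left h2 2
    refine Nat.mul_le_mul_right _ ?_
    calc 2 * (3 * (2 ^ LamQ n + 2) ^ 2) ≤ 2 * (3 * (3 * 2 ^ LamQ n) ^ 2) :=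
          Nat.mul_le_mul_left _ (Nat.mul_le_mul_left _ h3)
      _ = 54 * (2 ^ LamQ n) ^ 2 := by ring
      _ ≤ 128 * (2 ^ LamQ n) ^ 2 := Nat.mul_le_mul_right _ (by norm_num)
      _ = 2 ^ (2 * LamQ n + 7) := by rw [pow_add, pow_mul']; ring


end Pool.Agent.TD.TF
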