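import Pool.Agent.Lib_helper20.TF.DefsB
import Pool.Agent.Lib_helper57.AFF.Conc

/-!
# MSK part 2, block NB: monotonicity of the numerical parameters and steps
-/

set_option autoImplicit false

namespace Pool.Agent.TD.TF

open Pool.Agent.CK Pool.Agent.TD.IS

theorem nb_pow9 (L : ℕ) (h : 13 ≤ L) : (L + 1) ^ 9 ≤ 2 * L ^ 9 := by
  have h1 : 13 * (L + 1) ≤ 14 * L := by omega
  have h2 : (13 * (L + 1)) ^ 9 ≤ (14 * L) ^ 9 := Nat.pow_le_pow_left h1 9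
  rw [mul_pow, mul_pow] at h2
  have h3 : (14 : ℕ) ^ 9 * L ^ 9 ≤ 13 ^ 9 * (2 * L ^ 9) := by
    have : (14 : ℕ) ^ 9 ≤ 13 ^ 9 * 2 := by norm_num
    calc (14 : ℕ) ^ 9 * L ^ 9 ≤ (13 ^ 9 * 2) * L ^ 9 := Nat.mul_le_mul_right _ this
      _ = 13 ^ 9 * (2 * L ^ 9) := by ring
  exact Nat.le_of_mul_le_mul_left (h2.trans h3) (by norm_num)

theorem nb_step (L : ℕ) (h : 13 ≤ L) : 2 ^ (L + 1) / L ^ 9 ≤ 2 ^ (L + 1 + 1) / (L + 1) ^ 9 := by
  have hpos : 0 < (L + 1) ^ 9 := by positivity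
  rw [Nat.le_div_iff_mul_le hpos]
  calc 2 ^ (L + 1) / L ^ 9 * (L + 1) ^ 9 ≤ 2 ^ (L + 1) / L ^ 9 * (2 * L ^ 9) :=
        Nat.mul_le_mul_left _ (nb_pow9 L h)
    _ = 2 * (2 ^ (L + 1) / L ^ 9 * L ^ 9) := by ring
    _ ≤ 2 * 2 ^ (L + 1) := Nat.mul_le_mul_left _ (Nat.div_mul_le_self _ _)
    _ = 2 ^ (L + 1 + 1) := by ring

theorem nb_chain (L M : ℕ) (h : 13 ≤ L) (hLM : L ≤ M) :
    2 ^ (L + 1) / L ^ 9 ≤ 2 ^ (M + 1) / M ^ 9 := by
  induction M, hLM using Nat.le_induction with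
  | base => exact le_rfl
  | succ M hM ih => exact ih.trans (nb_step M (h.trans hM))

/-- NB -/
theorem LamQ_mono {n m : ℕ} (h : 13 ≤ Nat.log 2 n) (hnm : n ≤ m) : LamQ n ≤ LamQ m := by
  have h5 : Nat.log 2 n ≤ Nat.log 2 m := Nat.log_mono_right hnm
  unfold LamQ
  exact Nat.add_le_add_right (nb_chain _ _ h h5) 1

/-- NB -/
theorem KQ_mono {n m : ℕ} (h : 13 ≤ Nat.log 2 n) (hnm : n ≤ m) : KQ n ≤ KQ m := by
  unfold KQ
  exact Nat.pow_le_pow_left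
    (Nat.add_le_add_right (Nat.log_mono_right (LamQ_mono h hnm)) 1) 2

/-- NB -/
theorem EQ_mono {n m : ℕ} (h : 13 ≤ Nat.log 2 n) (hnm : n ≤ m) : EQ n ≤ EQ m := by
  have h1 := LamQ_mono h hnm
  have h2 := KQ_mono h hnm
  unfold EQ
  exact Nat.add_le_add h1 (Nat.mul_le_mul h2 (by omega))

/-- NB -/
theorem aQ_mono {n m : ℕ} (k : ℕ) (h : 13 ≤ Nat.log 2 n) (hnm : n ≤ m) :
    aQ k n ≤ aQ 0 m := by
  have h0 : n / 3 ≤ m / 3 := Nat.div_le_div_right hnm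
  have h1 := LamQ_mono h hnm
  have h2 := KQ_mono h hnm
  have h3 := EQ_mono h hnm
  unfold aQ
  exact Nat.add_le_add (Nat.add_le_add_right h0 2) (Nat.mul_le_mul (by omega) (by omega))

/-- NB: `T(n) = 2 ^ (n / (log n)^9) ≤ 2 ^ (LamQ n - 1)` -/
theorem div_log_lt_LamQ (n : ℕ) : n / (Nat.log 2 n) ^ 9 < LamQ n := by
  unfold LamQ
  have h1 : n ≤ 2 ^ (Nat.log 2 n + 1) := (Nat.lt_pow_succ_log_self (by norm_num) n).le
  exact Nat.lt_succ_of_le (Nat.div_le_div_right h1)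

/-- NB -/
theorem dQ_le (k n : ℕ) : dQ k n ≤ 2 ^ EQ n ∧ ddQ n ≤ dQ k n := by
  unfold dQ EQ ddQ
  refine ⟨Nat.pow_le_pow_right (by norm_num) ?_, Nat.pow_le_pow_right (by norm_num) (by omega)⟩
  exact Nat.add_le_add_left (Nat.mul_le_mul_right _ (Nat.sub_le _ _)) _

/-- NB -/
theorem NQ_ge {n k : ℕ} (h : 13 ≤ Nat.log 2 n) (hk : k < KQ n) (hn : n < 3 * sM k) :
    8 * dQ k n * DelM k n ≤ NQ k := by
  have h1 := LamQ_mono h hn.le
  have h2 := KQ_mono h hn.le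
  have h3 := EQ_mono h hn.le
  have h4 : dQ k n ≤ 2 ^ EQ (3 * sM k) :=
    (dQ_le k n).1.trans (Nat.pow_le_pow_right (by norm_num) h3)
  have h5 : DelM k n ≤ 2 ^ (LamQ (3 * sM k) + 3 * KQ (3 * sM k)) := by
    unfold DelM
    rw [if_pos hk]
    unfold DelQ
    rw [← pow_succ']
    exact Nat.pow_le_pow_right (by norm_num) (by omega)
  unfold NQ
  exact Nat.mul_le_mul (Nat.mul_le_mul_left _ h4) h5

/-- NB -/
theorem aQ_step {k n : ℕ} (hk : k < KQ n) : aQ k n = aM k n + (EQ n + LamQ n + 14) := by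
  unfold aM
  rw [if_pos hk]
  unfold aQ
  obtain ⟨j, hj⟩ : ∃ j, KQ n - k = j + 1 := ⟨KQ n - (k + 1), by omega⟩
  have hj' : KQ n - (k + 1) = j := by omega
  rw [hj, hj']
  ring

/-- NB -/
theorem DelQ_step {k n : ℕ} (hk : k < KQ n) : DelQ k n = 4 * DelM k n := by
  unfold DelM
  rw [if_pos hk]
  unfold DelQ
  obtain ⟨j, hj⟩ : ∃ j, KQ n - k = j + 1 := ⟨KQ n - (k + 1), by omega⟩
  have hj' : KQ n - (k + 1) = j := by omega
  rw [hj, hj']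
  rw [show LamQ n + 3 * (j + 1) = LamQ n + 3 * j + 3 by ring, pow_add _ _ 3]
  ring

/-- NB -/
theorem irrelQ {k n : ℕ} (hk : KQ n ≤ k) :
    aQ k n = aM k n ∧ aQ (k + 1) n = aM k n ∧ DelQ k n = DelM k n ∧ DelQ (k + 1) n = DelM k n ∧
      dQ k n = dQ (k + 1) n := by
  have h1 : ¬ k < KQ n := by omega
  have h2 : KQ n - k = 0 := by omega
  have h3 : KQ n - (k + 1) = 0 := by omega
  unfold aM DelM
  rw [if_neg h1, if_neg h1]
  unfold aQ DelQ dQ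
  rw [h2, h3]
  exact ⟨rfl, rfl, rfl, rfl, rfl⟩


end Pool.Agent.TD.TF
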