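import Pool.Agent.Lib_helper20.TF.DefsB
import Pool.Agent.Lib_helper57.AFF.Conc
import Pool.Agent.Lib_helper20.TFF.NB
import Pool.Agent.Lib_helper64.TDF.CDA
import Pool.Agent.Lib_helper64.TDF.STB

/-!
# Block CB: number of adversaries with tests
-/

set_option autoImplicit false

namespace Pool.Agent.TD.TF

open Pool.Agent.CK Pool.Agent.TD.IS

theorem cb_rel {k n : ℕ} (hk : k < KQ n) : sD k ≤ ddQ n := by
  have hL : LamQ n ≠ 0 := Nat.succ_ne_zero _
  unfold KQ at hk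
  unfold sD ddQ su
  rw [Nat.pow_le_pow_iff_right (by norm_num : 1 < 2)]
  rw [← Nat.sqrt_lt', Nat.lt_succ_iff] at hk
  exact (Nat.le_log_iff_pow_le (by norm_num) hL).1 hk

theorem cb_aM_ge (k n : ℕ) : n / 3 + 2 ≤ aM k n := by
  unfold aM aQ
  split_ifs <;> omega

/-- numbers for the tests of one level -/
theorem cb_num (a L E s q d n : ℕ) (h : s + q + 3 ≤ 2 ^ L) (hd : d ≤ 2 ^ E)
    (hn : 8192 ≤ n) (ha : n / 3 + 2 ≤ a) :
    (2 ^ a + 2 * n) + ((n + 1) + ((s + (q + 1) + 1) * ((2 ^ a + n + 3) * d) +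
      ((q + 1 + 1) * d + (q + 1 + 1) * d))) ≤ 2 ^ (a + (E + L + 3)) := by
  have e0 : n / 3 < 2 ^ (n / 3) := Nat.lt_two_pow_self
  have e1 : 2 ^ (n / 3 + 2) ≤ 2 ^ a := Nat.pow_le_pow_right (by norm_num) ha
  have e2 : 2 ^ (n / 3 + 2) = 4 * 2 ^ (n / 3) := by rw [pow_add]; ring
  have e3 : n + 4 ≤ 2 ^ a := by omega
  have h1 : (s + (q + 1) + 1) * ((2 ^ a + n + 3) * d) ≤ 2 ^ L * ((2 * 2 ^ a) * 2 ^ E) :=
    Nat.mul_le_mul (by omega) (Nat.mul_le_mul (by omega) hd)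
  have h2 : (q + 1 + 1) * d ≤ 2 ^ L * 2 ^ E := Nat.mul_le_mul (by omega) hd
  have h3 : 2 ^ L * ((2 * 2 ^ a) * 2 ^ E) = 2 * 2 ^ (a + (E + L)) := by
    rw [pow_add, pow_add]; ring
  have h4 : 2 ^ L * 2 ^ E ≤ 2 ^ (a + (E + L)) := by
    rw [← pow_add]
    exact Nat.pow_le_pow_right (by norm_num) (by omega)
  have h5 : 2 ^ a ≤ 2 ^ (a + (E + L)) := Nat.pow_le_pow_right (by norm_num) (by omega)
  have h6 : 2 ^ (a + (E + L + 3)) = 8 * 2 ^ (a + (E + L)) := by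
    rw [show a + (E + L + 3) = (a + (E + L)) + 3 by ring, pow_add _ _ 3]; ring
  have h7 : 2 ^ L * 2 ^ E + 2 ^ L * 2 ^ E ≤ 2 ^ (a + (E + L)) := by
    have ha1 : E + L + 1 ≤ a + (E + L) := by omega
    have := Nat.pow_le_pow_right (show 0 < 2 by norm_num) ha1
    rw [pow_succ, pow_add 2 E L] at this
    have e : 2 ^ E * 2 ^ L = 2 ^ L * 2 ^ E := by ring
    rw [e] at this
    omega
  omega

/-- number of tests -/
theorem cb_tests (n0 k : ℕ) (Fm : Fam) (hN : ∀ n, n0 ≤ n → NumQ n) (h5 : 5 ≤ sj k)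
    (h2 : 2 * sj k ≤ su k) (hF : BddM n0 k Fm) :
    CardBd {t : Tst k | TstOKQ n0 k Fm t} (2 ^ (aQ 0 (3 * sM k) + 1)) := by
  have hZQ : Fintype.card (Z k × Q k) ≤ 2 ^ (sM k + (qb k + 1)) := by
    rw [Fintype.card_prod, pow_add]
    exact Nat.mul_le_mul (card_Z k) (card_Q k)
  let F : ℕ → Set (Tst k) := fun n => {t | n0 ≤ n ∧ k < KQ n ∧ (∃ A ∈ Fm n, ∃ x, t.τ = A x) ∧
    t.b.length = n ∧ t.ρ.length ≤ sT k n ∧ t.pre.length ≤ dQ k n ∧ t.post.length ≤ dQ k n}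
  have hFn : ∀ n < 3 * sM k, CardBd (F n) (2 ^ (aQ 0 (3 * sM k))) := by
    intro n hn
    by_cases hc : n0 ≤ n ∧ k < KQ n
    · obtain ⟨hn0, hk⟩ := hc
      have h13 := (hN n hn0).h13
      have hn13 : 8192 ≤ n := by
        have : 2 ^ 13 ≤ n := by
          have hn1 : n ≠ 0 := by
            rintro rfl
            simp at h13
          exact (Nat.le_log_iff_pow_le (by norm_num) hn1).1 h13
        norm_num at this
        exact this
      have hfit : sM k + qb k + 3 ≤ 2 ^ LamQ n := (fits k h5 h2).trans (cb_rel hk)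
      have hX : Fintype.card (X (2 * n)) ≤ 2 ^ (2 * n) := (card_X _).le
      have h1 := card_image (fun p : (X (2 * n) → DT Str) × X (2 * n) => p.1 p.2)
        (card_prod (hF n hn0).1 (card_univ hX))
      have h3 := card_image (fun p : DT Str × (Str × (List (Z k × Q k) ×
          (List (Q k) × List (Q k)))) => (⟨p.1, p.2.1, p.2.2.1, p.2.2.2.1, p.2.2.2.2⟩ : Tst k))
        (card_prod h1 (card_prod (card_str n) (card_prod (card_lists hZQ (sT k n))
          (card_prod (card_lists (card_Q k) (dQ k n)) (card_lists (card_Q k) (dQ k n))))))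
      have h4 := cb_num (aM k n) (LamQ n) (EQ n) (sM k) (qb k) (dQ k n) n hfit (dQ_le k n).1
        hn13 (cb_aM_ge k n)
      refine card_mono h3 ?_ (h4.trans ?_)
      · rintro ⟨τ, b, ρ, pre, post⟩ ⟨-, -, ⟨A, hA, x, hx⟩, hb, hρ, hpre, hpost⟩
        exact ⟨(τ, (b, (ρ, (pre, post)))), ⟨⟨(A, x), ⟨hA, trivial⟩, hx.symm⟩, hb.le, hρ, hpre,
          hpost⟩, rfl⟩
      · apply Nat.pow_le_pow_right (by norm_num)
        have e1 := aQ_step hk
        have e2 := aQ_mono k h13 hn.le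
        omega
    · have e : F n = ∅ := by
        apply Set.eq_empty_of_forall_notMem
        rintro t ⟨h1, h2, -⟩
        exact hc ⟨h1, h2⟩
      rw [e]
      exact ⟨Set.finite_empty, by simp⟩
  refine card_mono (card_biUnion (3 * sM k) F _ hFn) ?_ ?_
  · rintro t ⟨n, h1, h2, h3, h4, h5, h6, h7, h8⟩
    exact ⟨n, h2, h1, h3, h4, h5, h6, h7, h8⟩
  · have e1 : sM k + 2 ≤ aQ 0 (3 * sM k) := by unfold aQ; omega
    have e3 : sM k < 2 ^ sM k := Nat.lt_two_pow_self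
    have e4 : 2 ^ (sM k + 2) ≤ 2 ^ (aQ 0 (3 * sM k)) :=
      Nat.pow_le_pow_right (by norm_num) (by omega)
    have e5 : 2 ^ (sM k + 2) = 4 * 2 ^ sM k := by rw [pow_add]; ring
    rw [pow_succ]
    omega

/-- CB -/
theorem card_cmpQ (n0 k : ℕ) (Fm : Fam) (hN : ∀ n, n0 ≤ n → NumQ n) (h5 : 5 ≤ sj k)
    (h2 : 2 * sj k ≤ su k) (hK : NumKQ n0 k) (hF : BddM n0 k Fm) (n : ℕ) :
    CardBd (CmpQ n0 k Fm n) (2 ^ (n / 3)) := by
  by_cases hn : n = sn k
  · have hE : CardBd {p : Str × Bool | p.1.length ≤ qb k} (qb k + 1 + 1) := by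
      have h := card_prod (card_str (qb k)) (card_univ (α := Bool) (n := 1) (by simp))
      refine card_mono h ?_ le_rfl
      rintro ⟨w, b⟩ hw
      exact ⟨hw, trivial⟩
    have h1 := card_image (fun p : (List (Tst k) × ℕ) × (List (Str × Bool) × Str) =>
        (fun x : X (2 * n) => DT.tr (thrX (p.1.1.map treeQ) p.1.2 p.2.1)
          (AFF.ren2 (invTreeW (iM (sj k)) p.2.2 n x.1))))
      (card_prod (card_prod (card_list (cb_tests n0 k Fm hN h5 h2 hF) (lenQ k))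
        (card_nat (lenQ k + 1))) (card_prod (card_list hE (excI k))
          (card_str ((3 * sn k + 2) ^ sj k))))
    refine card_mono h1 ?_ ?_
    · rintro A' ⟨-, l, hl, hl', θ, hθ, E, hE1, hE2, w, hw, rfl⟩
      exact ⟨((l, θ), (E, w)), ⟨⟨⟨hl, hl'⟩, hθ.trans (by simpa using hl)⟩, ⟨⟨hE1, hE2⟩, hw⟩⟩,
        rfl⟩
    · rw [hn]
      refine le_trans ?_ hK.hcard
      have e1 : 2 ^ (aQ 0 (3 * sM k) + 1) + 1 ≤ 2 ^ (aQ 0 (3 * sM k) + 2) := by
        rw [pow_succ 2 (aQ 0 (3 * sM k) + 1)]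
        have := Nat.one_le_two_pow (n := aQ 0 (3 * sM k) + 1)
        omega
      have e2 := Nat.mul_le_mul_right (lenQ k) e1
      have e3 : (lenQ k + 2) * 2 ^ (aQ 0 (3 * sM k) + 2) =
          2 ^ (aQ 0 (3 * sM k) + 2) * lenQ k + 2 * 2 ^ (aQ 0 (3 * sM k) + 2) := by ring
      have e4 : (3 * sn k + 2) ^ sj k ≤ qb k := by
        unfold qb
        exact Nat.pow_le_pow_right (by omega) (by omega)
      have e5 : (excI k + 1) * (qb k + 4) = (qb k + 1 + 1 + 1) * excI k + excI k + qb k + 4 := by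
        ring
      rw [e3, e5]
      omega
  · have e : CmpQ n0 k Fm n = ∅ := by
      apply Set.eq_empty_of_forall_notMem
      rintro A ⟨h, -⟩
      exact hn h
    rw [e]
    exact ⟨Set.finite_empty, by simp⟩


end Pool.Agent.TD.TF
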