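import Pool.Agent.Lib_helper20.TF.DefsB
import Pool.Agent.Lib_helper57.AFF.Conc
import Pool.Agent.Lib_helper20.TFF.Imp
import Pool.Agent.Lib_helper20.TFF.NB
import Pool.Agent.Lib_helper64.TDF.CDD

/-!
# Block CC: depth of the adversaries with tests
-/

set_option autoImplicit false

namespace Pool.Agent.TD.TF

open Pool.Agent.CK Pool.Agent.TD.IS

theorem cc_ddQ_mono {n m : ℕ} (h : 13 ≤ Nat.log 2 n) (hnm : n ≤ m) : ddQ n ≤ ddQ m := by
  unfold ddQ
  exact Nat.pow_le_pow_right (by norm_num) (LamQ_mono h hnm)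

theorem cc_allQ_ren2 {β : Type} (P P' : Str → Prop) (h1 : ∀ w, P w → P' w)
    (h2 : ∀ w, P (false :: w) → P' (false :: true :: w)) (t : DT β) (h : t.AllQ P) :
    (AFF.ren2 t).AllQ P' := by
  induction t with
  | leaf b => trivial
  | node w n0 n1 ih0 ih1 =>
    obtain ⟨hw, h0, h1'⟩ := h
    match w with
    | [] => exact ⟨h1 _ hw, ih0 h0, ih1 h1'⟩
    | false :: w => exact ⟨h2 _ hw, ih0 h0, ih1 h1'⟩
    | true :: w => exact ⟨h1 _ hw, ih0 h0, ih1 h1'⟩

theorem cc_tree_depth {n0 k : ℕ} {Fm : Fam} (hN : ∀ n, n0 ≤ n → NumQ n) (hF : BddM n0 k Fm)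
    {t : Tst k} (ht : TstOKQ n0 k Fm t) (q : Q k) :
    (treeQ t q).depth ≤ 2 ^ EQ (3 * sM k) ∧ (treeQ t q).AllQ fun w => w.length ≤ ddQ (3 * sM k) := by
  obtain ⟨n, hn0, hn, _, ⟨A, hA, x, hx⟩, _⟩ := ht
  obtain ⟨_, h3⟩ := hF n hn0
  obtain ⟨h4, h5⟩ := h3 A hA x
  have h13 := (hN n hn0).h13
  have hm : ddQ n ≤ ddQ (3 * sM k) := cc_ddQ_mono h13 hn.le
  have hE : dQ k n ≤ 2 ^ EQ (3 * sM k) :=
    (dQ_le k n).1.trans (Nat.pow_le_pow_right (by norm_num) (EQ_mono h13 hn.le))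
  constructor
  · unfold treeQ
    rw [DT.depth_map]
    refine (depth_simI _ _ _ _ _).trans ?_
    rw [hx]
    exact h4.trans hE
  · unfold treeQ
    apply mach_allQ_map
    apply allQ_simI
    rw [hx]
    exact h5.mono fun w hw => le_trans hw hm

theorem cc_thrX_depth {m : ℕ} (l : List ({q : Str // q.length ≤ m} → DT Bool)) (θ d : ℕ)
    (E : List (Str × Bool)) (hl : ∀ t ∈ l, ∀ q, (t q).depth ≤ d) (w : Str) :
    (thrX l θ E w).depth ≤ l.length * d + 1 := by
  unfold thrX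
  split
  · simp
  · split_ifs with hq
    · refine (DT.depth_thr _ _ d ?_).trans ?_
      · intro t ht
        obtain ⟨t', ht', rfl⟩ := List.mem_map.1 ht
        exact hl t' ht' _
      · rw [List.length_map]
        omega
    · simp

theorem cc_thrX_allQ {m : ℕ} (P : Str → Prop) (l : List ({q : Str // q.length ≤ m} → DT Bool))
    (θ : ℕ) (E : List (Str × Bool)) (hl : ∀ t ∈ l, ∀ q, (t q).AllQ P) (w : Str) :
    (thrX l θ E w).AllQ P := by
  unfold thrX
  split
  · trivial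
  · split_ifs with hq
    · apply allQ_thr
      intro t ht
      obtain ⟨t', ht', rfl⟩ := List.mem_map.1 ht
      exact hl t' ht' _
    · trivial

/-- CC -/
theorem cmpQ_depth (n0 k : ℕ) (Fm : Fam) (hN : ∀ n, n0 ≤ n → NumQ n) (hK : NumKQ n0 k)
    (hF : BddM n0 k Fm) (n : ℕ) :
    ∀ A ∈ CmpQ n0 k Fm n, ∀ x, (A x).depth ≤ ddQ n ∧ (A x).AllQ fun w => w.length ≤ ddQ n := by
  rintro A ⟨hn, l, hl, hOK, θ, hθ, E, hE, hEl, w, hw, rfl⟩ x
  subst hn
  have hdm : ddQ (3 * sM k) ≤ ddQ (sn k) := hK.hdd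
  constructor
  · have h1 : ∀ q, (thrX (l.map treeQ) θ E q).depth ≤ lenQ k * 2 ^ EQ (3 * sM k) + 1 := by
      intro q
      refine (cc_thrX_depth (l.map treeQ) θ (2 ^ EQ (3 * sM k)) E ?_ q).trans ?_
      · intro t ht q
        obtain ⟨t', ht', rfl⟩ := List.mem_map.1 ht
        exact (cc_tree_depth hN hF (hOK t' ht') _).1
      · rw [List.length_map]
        have := Nat.mul_le_mul_right (2 ^ EQ (3 * sM k)) hl
        omega
    have h2 := DT.depth_tr (thrX (l.map treeQ) θ E)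
      (AFF.ren2 (invTreeW (iM (sj k)) w (sn k) x.1)) _ (by omega) h1
    refine h2.trans (le_trans ?_ hK.hdepth)
    rw [AFF.depth_ren2]
    have h3 := invTreeW_depth (iM (sj k)) w (sn k) x.1 x.2
    have h4 : (3 * sn k + 2) ^ ex (iM (sj k)) ≤ (3 * sn k + 2) ^ sj k :=
      Nat.pow_le_pow_right (by omega) (cdd_ex_le k)
    calc (invTreeW (iM (sj k)) w (sn k) x.1).depth * (lenQ k * 2 ^ EQ (3 * sM k) + 1)
        ≤ (sn k * (3 * sn k + 2) ^ ex (iM (sj k))) * (lenQ k * 2 ^ EQ (3 * sM k) + 1) :=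
          Nat.mul_le_mul_right _ h3
      _ ≤ (sn k * (3 * sn k + 2) ^ sj k) * (lenQ k * 2 ^ EQ (3 * sM k) + 1) :=
          Nat.mul_le_mul_right _ (Nat.mul_le_mul_left _ h4)
      _ = sn k * ((3 * sn k + 2) ^ sj k * (lenQ k * 2 ^ EQ (3 * sM k) + 1)) := by ring
  · apply allQ_tr
    · refine cc_allQ_ren2 (fun u => u.length ≤ qb k) _ ?_ ?_ _ (invTreeW_allQ k w hw x.1 x.2)
      · intro w hw u hu
        have hlen := hK.hlen
        rw [hu, List.length_cons] at hw
        omega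
      · intro w hw u hu
        have hlen := hK.hlen
        have hu' : u = true :: w := (List.cons.inj hu).2.symm
        rw [List.length_cons] at hw
        rw [hu', List.length_cons]
        omega
    · intro q
      apply cc_thrX_allQ
      intro t ht q
      obtain ⟨t', ht', rfl⟩ := List.mem_map.1 ht
      exact (cc_tree_depth hN hF (hOK t' ht') _).2.mono fun w hw => le_trans hw hdm


end Pool.Agent.TD.TF
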