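import Pool.Agent.Lib_helper20.TF.DefsB
import Pool.Agent.Lib_helper57.AFF.Conc
import Pool.Agent.Lib_helper74.CKF.MACH
import Pool.Agent.Lib_helper64.TDF.STB
import Pool.Agent.Lib_helper64.TDF.CDA

set_option autoImplicit false

namespace Pool.Agent.TD.TF

open Pool.Agent.CK Pool.Agent.TD.IS

theorem fq_pow (n : ℕ) : 2 ^ (LamQ n - 1) + 2 ^ (LamQ n - 1) = 2 ^ LamQ n := by
  have hL1 : 1 ≤ LamQ n := Nat.succ_le_succ (Nat.zero_le _)
  obtain ⟨l, hl⟩ : ∃ l, LamQ n = l + 1 := ⟨LamQ n - 1, by omega⟩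
  rw [hl, Nat.add_sub_cancel, pow_succ]
  ring

/-- the final family is small -/
theorem fq_card (N n : ℕ) (h : NumQ n) : CardBd (FinQ N n) (2 ^ (n / 3 + 2)) := by
  have e1 := fq_pow n
  have e2 : 2 ^ LamQ n ≤ 2 ^ (n / 3) := Nat.pow_le_pow_right (by norm_num) h.hL
  have e3 : 2 ^ (n / 3 + 2) = 4 * 2 ^ (n / 3) := by
    rw [pow_add]
    ring
  have hb := h.hb
  have h16 := h.old.h16
  have hc := card_image (fun p : (ℕ × Str) × ℕ => fun x : X (2 * n) =>
      AFF.ren ((runTree p.2 ([(Encodable.decode p.1.1 : Option Cmd).getD Cmd.skip],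
        init x.1 p.1.2)).map fun cf => cf.2 0))
    (card_prod (card_prod (card_nat n) (card_str (2 ^ (LamQ n - 1))))
      (card_nat (2 ^ (LamQ n - 1))))
  refine card_mono hc ?_ ?_
  · rintro A ⟨_, c, hcn, w, hw, t, ht, rfl⟩
    refine ⟨((Encodable.encode c, w), t), ⟨⟨hcn, hw⟩, ht⟩, ?_⟩
    funext x
    simp only [Encodable.encodek, Option.getD_some]
  · omega

/-- FQ (as `TDF/FIN`) -/
theorem bdd_finQ (n0 N : ℕ) (hN : ∀ n, n0 ≤ n → NumQ n) (top : ℕ) :
    BddQ n0 top (FinQ N) := by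
  intro n hn
  have h := hN n hn
  have e1 := fq_pow n
  have hc : CardBd (FinQ N n) (2 ^ aQ top n) :=
    card_mono (fq_card N n h) (Set.Subset.refl _)
      (Nat.pow_le_pow_right (by norm_num) (Nat.le_add_right _ _))
  refine ⟨hc, ?_⟩
  rintro A ⟨_, c, hcn, w, hw, t, ht, rfl⟩ x
  have hb := h.hb
  constructor
  · have e2 : 2 ^ LamQ n ≤ dQ top n :=
      Nat.pow_le_pow_right (by norm_num) (Nat.le_add_right _ _)
    show (AFF.ren ((runTree t ([c], init x.1 w)).map fun cf => cf.2 0)).depth ≤ dQ top n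
    rw [AFF.depth_ren, DT.depth_map]
    exact (mach_depth_runTree _ _).trans (by omega)
  · show (AFF.ren ((runTree t ([c], init x.1 w)).map fun cf => cf.2 0)).AllQ
      fun w => w.length ≤ 2 ^ LamQ n
    apply AFF.allQ_ren
    apply mach_allQ_map
    refine (mach_allQ_runTree t _ (2 ^ (LamQ n - 1)) (2 ^ LamQ n)
      (mach_init_len x.1 w _ (by rw [x.2]; exact hb) hw) (by omega)).mono ?_
    intro w hw
    rw [List.length_cons]
    omega

/-- FQ (as `TDF/FIN`) -/
theorem clQ_empty (M : Msk) (t0 : ℕ → ℕ) (n0 N top : ℕ) :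
    ∃ Nh, ∀ r, r ≤ top → ∀ n, Nh < n → ClQ M t0 n0 (FinQ N) top r n = ∅ := by
  have key : ∀ r : ℕ, ∃ Nh, ∀ r', r' ≤ r → ∀ n, Nh < n → ClQ M t0 n0 (FinQ N) top r' n = ∅ := by
    intro r
    induction r with
    | zero =>
      refine ⟨N, fun r' hr' n hn => ?_⟩
      have : r' = 0 := by omega
      subst this
      rw [Set.eq_empty_iff_forall_notMem]
      rintro A ⟨h1, _⟩
      omega
    | succ r ih =>
      obtain ⟨Nh, hNh⟩ := ih
      refine ⟨max Nh (sn (top - (r + 1))), fun r' hr' n hn => ?_⟩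
      have h1 : Nh < n := lt_of_le_of_lt (le_max_left _ _) hn
      have h2 : sn (top - (r + 1)) < n := lt_of_le_of_lt (le_max_right _ _) hn
      rcases Nat.lt_or_ge r' (r + 1) with hlt | hge
      · exact hNh r' (by omega) n h1
      have hr : r' = r + 1 := by omega
      subst hr
      have h3 := hNh r le_rfl n h1
      have hm : MaskF M (top - (r + 1)) (ClQ M t0 n0 (FinQ N) top r) n = ∅ := by
        unfold MaskF
        split_ifs
        · rw [h3, Set.eq_empty_iff_forall_notMem]
          rintro A ⟨B, hB, _⟩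
          exact hB
        · exact h3
      show NextQ t0 n0 (top - (r + 1)) (MaskF M (top - (r + 1)) (ClQ M t0 n0 (FinQ N) top r)) n = ∅
      have hsim : SimQ (top - (r + 1)) n
          (MaskF M (top - (r + 1)) (ClQ M t0 n0 (FinQ N) top r) n) = ∅ := by
        rw [hm, Set.eq_empty_iff_forall_notMem]
        rintro A ⟨B, hB, _⟩
        exact hB
      have hcmp : CmpQ n0 (top - (r + 1))
          (MaskF M (top - (r + 1)) (ClQ M t0 n0 (FinQ N) top r)) n = ∅ := by
        rw [Set.eq_empty_iff_forall_notMem]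
        rintro A ⟨h4, _⟩
        omega
      unfold NextQ
      split_ifs
      · rw [hsim, hcmp, Set.empty_union]
      · rw [hm, hcmp, Set.empty_union]
      · exact hm
  exact key top

/-- FQ: `run` with the final oracle as a tree over the oracle with masks, if all questions are
short (`AFF.eval_ren`, `mach_eval_runTree`, `AFF.mix_full`) -/
theorem sec_of_def (M : Msk) {n0 N n : ℕ} (hn0 : n0 ≤ n) (hn : n ≤ N)
    (hN : ∀ n, n0 ≤ n → NumQ n) {S : Sec} {O R : Lang} {top : ℕ} (htop : KQ n ≤ top)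
    (h : DefX n0 (DelQ top) S (M.mx (sD top) O R) (FinQ N)) : SecQ S (M.big O R) n := by
  intro c hc w hw t ht
  have hQ := hN n hn0
  have e1 := fq_pow n
  have h1 := h n hn0 (fun x => AFF.ren ((runTree t ([c], init x.1 w)).map fun cf => cf.2 0))
    ⟨hn, c, hc, w, hw, t, ht, rfl⟩
  have hsD : 2 ^ LamQ n ≤ sD top := by
    unfold sD
    apply Nat.pow_le_pow_right (by norm_num)
    have e2 : Nat.log 2 (LamQ n) + 1 ≤ su top := by
      unfold su
      rw [Nat.le_sqrt']
      exact htop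
    have e3 : LamQ n < 2 ^ (Nat.log 2 (LamQ n) + 1) := Nat.lt_pow_succ_log_self (by norm_num) _
    exact e3.le.trans (Nat.pow_le_pow_right (by norm_num) e2)
  have e : hits n (vv S n)
      (fun x => AFF.ren ((runTree t ([c], init x.1 w)).map fun cf => cf.2 0))
      (M.mx (sD top) O R) = (Finset.univ.filter fun x : X (2 * n) =>
      (run (M.big O R) c x.1 w t).2 0 = vv S n x).card := by
    unfold hits
    congr 1
    apply Finset.filter_congr
    intro x _
    rw [AFF.eval_ren, DT.eval_map]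
    have hq := mach_allQ_runTree t ([c], init x.1 w) (2 ^ (LamQ n - 1)) (2 ^ LamQ n)
      (mach_init_len x.1 w _ (by rw [x.2]; exact hQ.hb) hw) (by omega)
    rw [DT.eval_congr (O := fun v => M.mx (sD top) O R (true :: v)) (O' := M.big O R) _ _ hq
      (fun v hv => ?_), mach_eval_runTree]
    · rfl
    · exact AFF.mix_full M.short M.P O R (by omega)
  rw [e] at h1
  refine lt_of_le_of_lt (Nat.mul_le_mul_right _ ?_) h1
  unfold DelQ
  exact Nat.pow_le_pow_right (by norm_num) (Nat.le_add_right _ _)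

end Pool.Agent.TD.TF
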