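import Pool.Agent.Lib_helper20.TF.DefsB
import Pool.Agent.Lib_helper57.AFF.Conc
import Pool.Agent.Lib_helper20.TFF.Imp

/-!
# The all-levels induction for closed oracles, block HQ: the hard pair of a stage (MP_675993_lc)
-/

set_option autoImplicit false

namespace Pool.Agent.TD.TF

open Pool.Agent.CK Pool.Agent.TD.IS

theorem hq_lift (n0 k : ℕ) (Fm : Fam) :
    ∀ l : List (Q k → DT Bool),
      (∀ f ∈ l, f ∈ {f : Q k → DT Bool | ∃ t : Tst k, TstOKQ n0 k Fm t ∧ f = treeQ t}) →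
      ∃ l' : List (Tst k), l'.map treeQ = l ∧ ∀ t ∈ l', TstOKQ n0 k Fm t := by
  intro l
  induction l with
  | nil => intro _; exact ⟨[], rfl, fun t ht => by simp at ht⟩
  | cons f l ih =>
    intro h
    obtain ⟨t, ht, hf⟩ := h f (List.mem_cons_self ..)
    obtain ⟨l', h1, h2⟩ := ih fun g hg => h g (List.mem_cons_of_mem _ hg)
    refine ⟨t :: l', by rw [List.map_cons, h1, hf], ?_⟩
    intro t' ht'
    rcases List.mem_cons.1 ht' with rfl | h'
    · exact ht
    · exact h2 t' h'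

/-- HQ -/
theorem hardpairQ (M : Msk) (n0 k : ℕ) (h5 : 5 ≤ sj k) (h2 : 2 * sj k ≤ su k) (Fm : Fam)
    (S : Sec) (O R c : Lang)
    (hcor : ∃ w : Str, w.length ≤ (3 * sn k + 2) ^ sj k ∧ ∀ x : X (2 * sn k), ∀ i < sn k,
      PLW (iM (sj k)) w (join (M.big O R) c) (x.1 ++ unitv (sn k) i) =
        VV S (x.1 ++ unitv (sn k) i))
    (Av : Finset (Q k)) (hR : Av.card ≤ 2 ^ (sM k + 1))
    (hdef : ∀ A ∈ CmpQ n0 k Fm (sn k),
      DelQ k (sn k) * hits (sn k) (vv S (sn k)) A (M.mx (sD k) O R) < 4 ^ sn k) :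
    ∃ ν : Bool → Q k → ℝ, (∀ b, (∀ q, 0 ≤ ν b q) ∧ ∑ q, ν b q = 1) ∧
      (∀ b q, ν b q ≠ 0 → c q.1 = b ∧ q ∉ Av) ∧
      (∀ b q, ν b q ≤ 1 / 2 ^ (4 * sM k)) ∧
      ∀ t : Tst k, TstOKQ n0 k Fm t →
        ∑ q, ν true q * ind ((treeQ t q).eval (M.mx (sD k) O R)) ≤
          ∑ q, ν false q * ind ((treeQ t q).eval (M.mx (sD k) O R)) + 1 / (NQ k : ℝ) := by
  have hN : 1 ≤ NQ k := by
    unfold NQ
    have h3 : 0 < 8 * 2 ^ EQ (3 * sM k) * 2 ^ (LamQ (3 * sM k) + 3 * KQ (3 * sM k)) := by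
      positivity
    exact h3
  have hqb : qb k < sD k := by
    have := fits k h5 h2
    omega
  rcases hardpairG c (M.mx (sD k) O R)
    {f : Q k → DT Bool | ∃ t : Tst k, TstOKQ n0 k Fm t ∧ f = treeQ t}
    (NQ k) (qb k + 1) (4 * sM k + 1) hN (card_Q k) Av with
    ⟨ν, hν, hc, hs, hD⟩ | ⟨l, θ, E, hl, hlD, hθ, hE1, hE2, hcq⟩
  · refine ⟨ν, hν, hc, fun b q => ?_, fun t ht => hD _ ⟨t, ht, rfl⟩⟩
    refine (hs b q).trans (le_of_eq ?_)
    rw [pow_succ]
    field_simp
  · exfalso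
    obtain ⟨l', h1, h2'⟩ := hq_lift n0 k Fm l hlD
    obtain ⟨w, hw, hcor'⟩ := hcor
    have hlen : l'.length = l.length := by rw [← h1, List.length_map]
    have hE3 : E.length ≤ excI k := by
      have h3 : (4 : ℕ) ^ (4 * sM k + 1 + 1) = 2 ^ (8 * sM k + 4) := by
        rw [show (4 : ℕ) = 2 ^ 2 by norm_num, ← pow_mul]
        congr 1
        ring
      have h4 : (2 : ℕ) ^ (sM k + 1) ≤ 2 ^ (8 * sM k + 4) :=
        Nat.pow_le_pow_right (by norm_num) (by omega)
      have h5 : excI k = 2 ^ (8 * sM k + 4) + 2 ^ (8 * sM k + 4) := by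
        unfold excI
        ring
      rw [h3] at hE1
      omega
    have hmem : (fun x : X (2 * sn k) => DT.tr (thrX (l'.map treeQ) θ E)
        (AFF.ren2 (invTreeW (iM (sj k)) w (sn k) x.1))) ∈ CmpQ n0 k Fm (sn k) :=
      ⟨rfl, l', by rw [hlen]; exact hl, h2', θ, by rw [hlen]; exact hθ, E, hE3, hE2, w, hw, rfl⟩
    have hall : ∀ x : X (2 * sn k), (DT.tr (thrX (l'.map treeQ) θ E)
        (AFF.ren2 (invTreeW (iM (sj k)) w (sn k) x.1))).eval (M.mx (sD k) O R) =
          vv S (sn k) x := by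
      intro x
      rw [DT.eval_tr, AFF.eval_ren2, ← invTreeW_correct S (iM (sj k)) w (sn k) x
        (join (M.big O R) c) (fun i hi => hcor' x i hi)]
      apply DT.eval_join_congr _ _ (invTreeW_allQ k w hw x.1 x.2)
      · intro u hu
        have hu' : u.length ≤ sD k := by
          have : (false :: u).length ≤ qb k := hu
          rw [List.length_cons] at this
          omega
        exact AFF.mix_full M.short M.P O R hu'
      · intro u hu
        have hu' : u.length ≤ qb k := by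
          have : (true :: u).length ≤ qb k := hu
          rw [List.length_cons] at this
          omega
        rw [h1]
        exact hcq u hu'
    have hh : hits (sn k) (vv S (sn k)) (fun x : X (2 * sn k) =>
        DT.tr (thrX (l'.map treeQ) θ E) (AFF.ren2 (invTreeW (iM (sj k)) w (sn k) x.1)))
          (M.mx (sD k) O R) = 4 ^ sn k := by
      unfold hits
      rw [Finset.filter_true_of_mem (fun x _ => hall x), Finset.card_univ, card_X, pow_mul]
      norm_num
    have h4 := hdef _ hmem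
    rw [hh] at h4
    have hD1 : 1 ≤ DelQ k (sn k) := by
      unfold DelQ
      exact Nat.one_le_two_pow
    have h5 : 1 * 4 ^ sn k ≤ DelQ k (sn k) * 4 ^ sn k := Nat.mul_le_mul_right _ hD1
    omega

end Pool.Agent.TD.TF
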