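import Pool.Agent.Lib_helper20.TF.DefsB
import Pool.Agent.Lib_helper57.AFF.Conc
import Pool.Agent.Lib_helper64.TDF.NU1

/-!
# MSK, block NA: numerical conditions for levels
-/

set_option autoImplicit false

namespace Pool.Agent.TD.TF

open Pool.Agent.CK Pool.Agent.TD.IS

theorem na_pow (L : ℕ) (h : 100 ≤ L) : 2 * L ^ 10 ≤ 2 ^ L := by
  induction L, h using Nat.le_induction with
  | base => norm_num
  | succ L hL ih =>
    have h1 : 100 ^ 10 * (L + 1) ^ 10 ≤ 100 ^ 10 * (2 * L ^ 10) := by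
      have h2 : (100 * (L + 1)) ^ 10 ≤ (101 * L) ^ 10 := Nat.pow_le_pow_left (by omega) 10
      rw [mul_pow, mul_pow] at h2
      refine h2.trans ?_
      have h3 : 101 ^ 10 ≤ 100 ^ 10 * 2 := by norm_num
      calc 101 ^ 10 * L ^ 10 ≤ (100 ^ 10 * 2) * L ^ 10 := Nat.mul_le_mul_right _ h3
        _ = 100 ^ 10 * (2 * L ^ 10) := by ring
    have h4 : (L + 1) ^ 10 ≤ 2 * L ^ 10 := Nat.le_of_mul_le_mul_left h1 (by norm_num)
    calc 2 * (L + 1) ^ 10 ≤ 2 * (2 * L ^ 10) := Nat.mul_le_mul_left _ h4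
      _ ≤ 2 * 2 ^ L := Nat.mul_le_mul_left _ ih
      _ = 2 ^ (L + 1) := by ring

/-- NA -/
theorem exists_n0Q : ∃ n0 : ℕ, ∀ n, n0 ≤ n → NumQ n := by
  obtain ⟨m0, hm0⟩ := TD.exists_n0
  refine ⟨max m0 (2 ^ 100), fun n hn' => ?_⟩
  have hold := hm0 n (le_trans (le_max_left _ _) hn')
  have hn : 2 ^ 100 ≤ n := le_trans (le_max_right _ _) hn'
  obtain ⟨L, hL⟩ : ∃ L, L = Nat.log 2 n := ⟨_, rfl⟩
  have hn0 : n ≠ 0 := by
    have : 0 < 2 ^ 100 := by positivity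
    omega
  have hL100 : 100 ≤ L := by
    rw [hL]
    exact Nat.le_log_of_pow_le (by norm_num) hn
  have h1 : 2 ^ L ≤ n := by
    rw [hL]; exact Nat.pow_log_le_self 2 hn0
  have h2 : n < 2 ^ (L + 1) := by
    rw [hL]; exact Nat.lt_pow_succ_log_self (by norm_num) n
  have hp := na_pow L hL100
  obtain ⟨q, hq⟩ : ∃ q, q = 2 ^ (L + 1) / L ^ 9 := ⟨_, rfl⟩
  obtain ⟨p, hpd⟩ : ∃ p, p = 2 ^ (L + 1) / L ^ 3 := ⟨_, rfl⟩
  have hLamQ : LamQ n = q + 1 := by rw [LamQ, ← hL, hq]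
  have hLam : Lam n = p + 1 := by rw [Lam, ← hL, hpd]
  have hL3 : 0 < L ^ 3 := by positivity
  have hL9 : 0 < L ^ 9 := by positivity
  have hq1 : q * L ^ 9 ≤ 2 ^ (L + 1) := by
    rw [hq]; exact Nat.div_mul_le_self _ _
  have h2L : 2 ^ (L + 1) = 2 * 2 ^ L := by ring
  have hqp : q * L ^ 6 ≤ p := by
    rw [hpd, Nat.le_div_iff_mul_le hL3]
    calc q * L ^ 6 * L ^ 3 = q * L ^ 9 := by ring
      _ ≤ 2 ^ (L + 1) := hq1
  -- lower bound for `q`
  have hq4 : L + 2 ≤ q := by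
    rw [hq, Nat.le_div_iff_mul_le hL9]
    have h3 : (L + 2) * L ^ 9 ≤ (2 * L) * L ^ 9 := Nat.mul_le_mul_right _ (by omega)
    have h4 : (2 * L) * L ^ 9 = 2 * L ^ 10 := by ring
    omega
  obtain ⟨s, hs⟩ : ∃ s, s = L ^ 2 := ⟨_, rfl⟩
  have hs1 : 10000 ≤ s := by rw [hs]; nlinarith
  have hLs : L ≤ s := by rw [hs]; exact Nat.le_self_pow (by norm_num) L
  -- `1000 * (s * q) ≤ p`
  have hsq : 1000 * (s * q) ≤ p := by
    refine le_trans ?_ hqp
    have h3 : 1000 * s ≤ L ^ 6 := by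
      have h4 : L ^ 6 = s * s * s := by rw [hs]; ring
      rw [h4]
      exact Nat.mul_le_mul_right _ (by nlinarith)
    calc 1000 * (s * q) = (1000 * s) * q := by ring
      _ ≤ L ^ 6 * q := Nat.mul_le_mul_right _ h3
      _ = q * L ^ 6 := by ring
  have hqsq : q ≤ s * q := Nat.le_mul_of_pos_left _ (by omega)
  have hssq : s ≤ s * q := Nat.le_mul_of_pos_right _ (by omega)
  have hqn : 1000 * q ≤ n := by
    have h3 : 2000 * q ≤ q * L ^ 9 := by
      rw [Nat.mul_comm q]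
      refine Nat.mul_le_mul_right _ ?_
      calc 2000 ≤ 100 ^ 9 := by norm_num
        _ ≤ L ^ 9 := Nat.pow_le_pow_left hL100 9
    omega
  have hsn : 2 * s ≤ n := by
    have h3 : s ≤ L ^ 10 := by rw [hs]; exact Nat.pow_le_pow_right (by omega) (by norm_num)
    omega
  -- `KQ`
  have hK : KQ n ≤ (L + 1) ^ 2 := by
    rw [KQ]
    apply Nat.pow_le_pow_left
    have h3 : Nat.log 2 (LamQ n) ≤ L := by
      rw [hLamQ]
      have h4 : q + 1 ≤ n := by omega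
      rw [hL]
      exact Nat.log_mono_right h4
    omega
  have hK1 : (L + 1) ^ 2 ≤ 2 * s := by rw [hs]; nlinarith
  have hK2 : KQ n ≤ 2 * s := hK.trans hK1
  have hLL : LamQ n ≤ Lam n := by omega
  have hKK : KQ n ≤ KK n := by
    rw [KQ, KK]
    apply Nat.pow_le_pow_left
    have := Nat.log_mono_right (b := 2) hLL
    omega
  have hKL : KQ n * (2 * LamQ n + 8) ≤ 4 * (s * q) + 20 * s := by
    rw [hLamQ]
    calc KQ n * (2 * (q + 1) + 8) ≤ 2 * s * (2 * (q + 1) + 8) :=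
          Nat.mul_le_mul_right _ hK2
      _ = 4 * (s * q) + 20 * s := by ring
  have hE : EQ n ≤ q + 1 + 4 * (s * q) + 20 * s := by
    rw [EQ, hLamQ] at *
    omega
  refine ⟨hold, ?_, ?_, ?_, ?_, ?_, ?_, ?_⟩
  · omega
  · rw [aQ, aa, Nat.sub_zero, Nat.sub_zero]
    refine Nat.add_le_add_left ?_ _
    refine Nat.mul_le_mul hKK ?_
    omega
  · omega
  · rw [hLamQ, Nat.add_sub_cancel]
    have h3 : 2 ^ (L + 2) ≤ 2 ^ q := Nat.pow_le_pow_right (by norm_num) hq4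
    have h4 : 2 ^ (L + 2) = 2 * 2 ^ (L + 1) := by ring
    omega
  · rw [hLamQ, Nat.le_div_iff_mul_le (by norm_num)]
    omega
  · omega
  · rw [← hL]
    omega


end Pool.Agent.TD.TF
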