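import Pool.Agent.Lib_helper20.TF.DefsB
import Pool.Agent.Lib_helper57.AFF.Conc
import Pool.Agent.Lib_helper64.TDF.NU3

/-!
# Block NC: numerical conditions for active stages
-/

set_option autoImplicit false

namespace Pool.Agent.TD.TF

open Pool.Agent.CK Pool.Agent.TD.IS

theorem nc_pow9 (T : ℕ) (h : 80 ≤ T) : 2 ^ 17 * T ^ 9 ≤ 2 ^ T := by
  induction T, h using Nat.le_induction with
  | base => norm_num
  | succ T hT ih =>
    have h1 : (T + 1) ^ 9 ≤ 2 * T ^ 9 := by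
      obtain ⟨s, rfl⟩ := Nat.exists_eq_add_of_le hT
      ring_nf
      omega
    calc 2 ^ 17 * (T + 1) ^ 9 ≤ 2 ^ 17 * (2 * T ^ 9) := Nat.mul_le_mul le_rfl h1
      _ = 2 * (2 ^ 17 * T ^ 9) := by ring
      _ ≤ 2 * 2 ^ T := Nat.mul_le_mul le_rfl ih
      _ = 2 ^ (T + 1) := by rw [pow_succ]; ring

theorem nc_pow10 (T : ℕ) (h : 80 ≤ T) : (T + 1) ^ 10 ≤ 2 ^ T := by
  induction T, h using Nat.le_induction with
  | base => norm_num
  | succ T hT ih =>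
    have h1 : (T + 1 + 1) ^ 10 ≤ 2 * (T + 1) ^ 10 := by
      obtain ⟨s, rfl⟩ := Nat.exists_eq_add_of_le hT
      ring_nf
      omega
    calc (T + 1 + 1) ^ 10 ≤ 2 * (T + 1) ^ 10 := h1
      _ ≤ 2 * 2 ^ T := Nat.mul_le_mul le_rfl ih
      _ = 2 ^ (T + 1) := by rw [pow_succ]; ring

/-- the value of `LamQ` at the level `3 * 2 ^ T` -/
theorem nc_Lam_small (T : ℕ) (h : 80 ≤ T) :
    (T + 1) ^ 8 * (LamQ (3 * 2 ^ T) - 1) ≤ 2 ^ T ∧ 1 ≤ LamQ (3 * 2 ^ T) := by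
  unfold LamQ
  rw [nu3_log_three]
  refine ⟨?_, Nat.le_add_left _ _⟩
  rw [Nat.add_sub_cancel]
  have h1 := Nat.mul_div_le (2 ^ (T + 1 + 1)) ((T + 1) ^ 9)
  set q := 2 ^ (T + 1 + 1) / (T + 1) ^ 9 with hq
  have h2 : (T + 1) ^ 9 * q = (T + 1) * ((T + 1) ^ 8 * q) := by ring
  have h3 : 4 * ((T + 1) ^ 8 * q) ≤ (T + 1) * ((T + 1) ^ 8 * q) :=
    Nat.mul_le_mul (by omega) le_rfl
  have h4 : 2 ^ (T + 1 + 1) = 4 * 2 ^ T := by rw [pow_succ, pow_succ]; ring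
  omega

theorem nc_Lam_small' (T : ℕ) (h : 80 ≤ T) : LamQ (3 * 2 ^ T) ≤ 2 ^ T := by
  obtain ⟨h1, h2⟩ := nc_Lam_small T h
  have h3 : 2 * (LamQ (3 * 2 ^ T) - 1) ≤ (T + 1) ^ 8 * (LamQ (3 * 2 ^ T) - 1) := by
    apply Nat.mul_le_mul _ le_rfl
    calc 2 ≤ (2 : ℕ) ^ 8 := by norm_num
      _ ≤ (T + 1) ^ 8 := Nat.pow_le_pow_left (by omega) 8
  have h4 : 2 ^ 1 ≤ 2 ^ T := Nat.pow_le_pow_right (by norm_num) (by omega)
  omega

theorem nc_KQ_small (T : ℕ) (h : 80 ≤ T) : KQ (3 * 2 ^ T) ≤ (T + 1) ^ 2 := by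
  unfold KQ
  apply Nat.pow_le_pow_left
  have : Nat.log 2 (LamQ (3 * 2 ^ T)) ≤ Nat.log 2 (2 ^ T) :=
    Nat.log_mono_right (nc_Lam_small' T h)
  rw [Nat.log_pow (by norm_num)] at this
  omega

theorem nc_Lam_large (T : ℕ) (h : 80 ≤ T) : 2 ^ (3 * T) ≤ LamQ (2 ^ (4 * T)) := by
  unfold LamQ
  rw [Nat.log_pow (by norm_num)]
  have h1 : 2 ^ (3 * T) ≤ 2 ^ (4 * T + 1) / (4 * T) ^ 9 := by
    rw [Nat.le_div_iff_mul_le (by positivity)]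
    have h2 := nc_pow9 T h
    calc 2 ^ (3 * T) * (4 * T) ^ 9 = 2 ^ (3 * T) * (2 * (2 ^ 17 * T ^ 9)) := by ring
      _ ≤ 2 ^ (3 * T) * (2 * 2 ^ T) := Nat.mul_le_mul le_rfl (Nat.mul_le_mul le_rfl h2)
      _ = 2 ^ (4 * T + 1) := by rw [show 4 * T + 1 = 3 * T + T + 1 by ring, pow_succ, pow_add]; ring
  omega

theorem nc_KQ_large (T : ℕ) (h : 80 ≤ T) : (3 * T + 1) ^ 2 ≤ KQ (2 ^ (4 * T)) := by
  unfold KQ
  apply Nat.pow_le_pow_left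
  have : Nat.log 2 (2 ^ (3 * T)) ≤ Nat.log 2 (LamQ (2 ^ (4 * T))) :=
    Nat.log_mono_right (nc_Lam_large T h)
  rw [Nat.log_pow (by norm_num)] at this
  omega

/-- the exponents at the level `3 * 2 ^ T` -/
theorem nc_exps (T P : ℕ) (h : 80 ≤ T) (hP : P = 2 ^ T) :
    EQ (3 * 2 ^ T) + 2 ≤ P ∧
      3 + EQ (3 * 2 ^ T) + (LamQ (3 * 2 ^ T) + 3 * KQ (3 * 2 ^ T)) ≤ P ∧
      aQ 0 (3 * 2 ^ T) + 2 ≤ 2 * P := by
  obtain ⟨h1, h2⟩ := nc_Lam_small T h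
  have hK := nc_KQ_small T h
  have h10 := nc_pow10 T h
  have h1 : (T + 1) ^ 8 * (LamQ (3 * 2 ^ T) - 1) ≤ P := by rw [hP]; exact h1
  rw [← hP] at h10
  obtain ⟨l, hl⟩ : ∃ l, LamQ (3 * 2 ^ T) = l + 1 := ⟨LamQ (3 * 2 ^ T) - 1, by omega⟩
  rw [hl, Nat.add_sub_cancel] at h1
  obtain ⟨u, hu⟩ : ∃ u, u = T + 1 := ⟨_, rfl⟩
  rw [← hu] at h1 h10 hK
  have hu81 : 81 ≤ u := by omega
  have hE : EQ (3 * 2 ^ T) ≤ (l + 1) + u ^ 2 * (2 * (l + 1) + 8) := by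
    unfold EQ
    rw [hl]
    exact Nat.add_le_add_left (Nat.mul_le_mul hK le_rfl) _
  have hA : aQ 0 (3 * 2 ^ T) ≤ P + 2 +
      u ^ 2 * (2 * ((l + 1) + u ^ 2 * (2 * (l + 1) + 8)) + 4 * (l + 1) + 24) := by
    unfold aQ
    rw [hl, Nat.sub_zero]
    have e : 3 * 2 ^ T / 3 = P := by rw [hP]; omega
    rw [e]
    apply Nat.add_le_add_left
    exact Nat.mul_le_mul hK (by omega)
  -- everything is at most `u ^ 4 * (16 * l + 64)`, and `u ^ 8 * l ≤ P`, `u ^ 10 ≤ P`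
  have hu4 : 6561 * 6561 ≤ u ^ 4 := by
    calc 6561 * 6561 = 81 ^ 4 := by norm_num
      _ ≤ u ^ 4 := Nat.pow_le_pow_left hu81 4
  have k1 : 6561 * 6561 * (u ^ 4 * l) ≤ P := by
    calc 6561 * 6561 * (u ^ 4 * l) ≤ u ^ 4 * (u ^ 4 * l) := Nat.mul_le_mul hu4 le_rfl
      _ = u ^ 8 * l := by ring
      _ ≤ P := h1
  have k2 : 6561 * 6561 * u ^ 4 ≤ P := by
    calc 6561 * 6561 * u ^ 4 ≤ u ^ 4 * u ^ 4 := Nat.mul_le_mul hu4 le_rfl
      _ ≤ u ^ 10 := by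
        rw [← pow_add]
        exact Nat.pow_le_pow_right (by omega) (by norm_num)
      _ ≤ P := h10
  have k3 : u ^ 2 ≤ u ^ 4 := Nat.pow_le_pow_right (by omega) (by norm_num)
  have k4 : u ^ 2 * l ≤ u ^ 4 * l := Nat.mul_le_mul k3 le_rfl
  have k5 : l ≤ u ^ 4 * l := Nat.le_mul_of_pos_left _ (by positivity)
  have e1 : (l + 1) + u ^ 2 * (2 * (l + 1) + 8) = l + 1 + 2 * (u ^ 2 * l) + 10 * u ^ 2 := by ring
  have e2 : u ^ 2 * (2 * ((l + 1) + u ^ 2 * (2 * (l + 1) + 8)) + 4 * (l + 1) + 24) =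
      6 * (u ^ 2 * l) + 30 * u ^ 2 + 4 * (u ^ 4 * l) + 20 * u ^ 4 := by ring
  rw [e1] at hE
  rw [e2] at hA
  rw [hl]
  refine ⟨by omega, by omega, by omega⟩

theorem nc_P_aux (T P : ℕ) (hT : 80 ≤ T) (h : 32 * T ^ 3 ≤ P) :
    8 * T ^ 2 + 10 * T + 13 ≤ P ∧ 5845 ≤ P ∧ 9 * P + 9 ≤ P ^ 3 ∧
      (10 * P + 20) * 3 ≤ P ^ 4 := by
  obtain ⟨h1, h2⟩ := nu3_num_aux T P (by omega) h
  have h3 : 40 * P ≤ P * P := Nat.mul_le_mul (by omega) le_rfl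
  have h4 : P * P ≤ P * P * P := Nat.le_mul_of_pos_right _ (by omega)
  have h5 : P * P * P ≤ P * P * P * P := Nat.le_mul_of_pos_right _ (by omega)
  have e3 : P ^ 3 = P * P * P := by ring
  have e4 : P ^ 4 = P * P * P * P := by ring
  rw [e3, e4]
  refine ⟨h1, h2, by omega, by omega⟩

/-- NC -/
theorem exists_t0Q (n0 : ℕ) : ∃ t0 : ℕ → ℕ, ∀ k, Act t0 k → NumKQ n0 k := by
  refine ⟨fun j => j + n0 + 200, fun k hk => ?_⟩
  obtain ⟨h5, h2, ht⟩ := hk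
  obtain ⟨T, hT⟩ : ∃ T, T = 2 ^ (st k + 1) := ⟨_, rfl⟩
  have hsM : sM k = 2 ^ T := by rw [hT]; rfl
  have hsn : sn k = 2 ^ (4 * T) := by
    rw [hT]; unfold sn; congr 1; rw [pow_add, pow_add]; ring
  have hsu : su k = st k + 2 * sj k := by
    have : st k = su k - 2 * sj k := rfl
    omega
  have hk : k = su k * su k + sj k := by
    have h1 : sj k = k - su k * su k := rfl
    have h3 : su k * su k ≤ k := Nat.sqrt_le k
    omega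
  have htT : st k < 2 ^ st k := Nat.lt_two_pow_self
  have hT2 : T = 2 * 2 ^ st k := by rw [hT, pow_succ]; ring
  simp only at ht
  have hT80 : 80 ≤ T := by omega
  have hjT : sj k + 1 ≤ T := by omega
  have hL := nc_Lam_small' T hT80
  have hL' := nc_Lam_large T hT80
  have hK' := nc_KQ_large T hT80
  have hsuT : su k ≤ 3 * T := by omega
  have hsjT : sj k ≤ su k := by omega
  have hn0T : n0 ≤ 4 * T := by omega
  clear hT2 htT hT ht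
  -- powers
  obtain ⟨P, hP⟩ : ∃ P, P = 2 ^ T := ⟨_, rfl⟩
  have hbig := nu3_pow_big T (by omega)
  rw [← hP] at hbig
  obtain ⟨hTP, hP1, hp1, hp3⟩ := nc_P_aux T P hT80 hbig
  obtain ⟨hE, hN, hA⟩ := nc_exps T P hT80 hP
  rw [← hsM] at hE hN hA
  have hP3 : 2 ^ (3 * T) = P ^ 3 := by rw [hP, ← pow_mul]; congr 1; ring
  have hP4 : 2 ^ (4 * T) = P ^ 4 := by rw [hP, ← pow_mul]; congr 1; ring
  clear hbig
  -- qb
  have hs2 : 3 * sn k + 2 ≤ 2 ^ (4 * T + 2) := by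
    have h1 : 2 ^ 1 ≤ 2 ^ (4 * T) := Nat.pow_le_pow_right (by norm_num) (by omega)
    rw [hsn, pow_add]
    omega
  have hqb : qb k ≤ 2 ^ ((4 * T + 2) * (sj k + 1)) := by
    unfold qb
    rw [pow_mul]
    exact Nat.pow_le_pow_left hs2 _
  have hjj : (4 * T + 2) * (sj k + 1) ≤ 4 * T ^ 2 + 2 * T := by
    calc (4 * T + 2) * (sj k + 1) ≤ (4 * T + 2) * T := Nat.mul_le_mul le_rfl hjT
      _ = 4 * T ^ 2 + 2 * T := by ring
  have hjj0 : (4 * T + 2) * sj k ≤ 4 * T ^ 2 + 2 * T :=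
    le_trans (Nat.mul_le_mul le_rfl (Nat.le_succ _)) hjj
  have hqb2 : qb k ≤ 2 ^ (4 * T ^ 2 + 2 * T) :=
    hqb.trans (Nat.pow_le_pow_right (by norm_num) hjj)
  have hq3 : qb k + 4 ≤ 2 ^ (4 * T ^ 2 + 2 * T + 3) := by
    rw [pow_add]
    have : 1 ≤ 2 ^ (4 * T ^ 2 + 2 * T) := Nat.one_le_pow _ _ (by norm_num)
    omega
  -- NQ
  have hNN : NQ k ≤ 2 ^ P := by
    unfold NQ
    calc 8 * 2 ^ EQ (3 * sM k) * 2 ^ (LamQ (3 * sM k) + 3 * KQ (3 * sM k))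
        = 2 ^ (3 + EQ (3 * sM k) + (LamQ (3 * sM k) + 3 * KQ (3 * sM k))) := by
          rw [show (8 : ℕ) = 2 ^ 3 by norm_num, ← pow_add, ← pow_add]
      _ ≤ 2 ^ P := Nat.pow_le_pow_right (by norm_num) hN
  have hlen : lenQ k ≤ 2 ^ (3 * P) := by
    unfold lenQ
    have h1 : 2 * (qb k + 1) + 1 ≤ 2 ^ (4 * T ^ 2 + 2 * T + 3) := by
      rw [pow_add]
      have : 1 ≤ 2 ^ (4 * T ^ 2 + 2 * T) := Nat.one_le_pow _ _ (by norm_num)
      omega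
    calc 4 * NQ k ^ 2 * (2 * (qb k + 1) + 1)
        ≤ 2 ^ 2 * (2 ^ P) ^ 2 * 2 ^ (4 * T ^ 2 + 2 * T + 3) :=
          Nat.mul_le_mul (Nat.mul_le_mul le_rfl (Nat.pow_le_pow_left hNN 2)) h1
      _ = 2 ^ (2 + P * 2 + (4 * T ^ 2 + 2 * T + 3)) := by
          rw [← pow_mul, ← pow_add, ← pow_add]
      _ ≤ 2 ^ (3 * P) := Nat.pow_le_pow_right (by norm_num) (by omega)
  have hddn : 2 ^ (P ^ 3) ≤ ddQ (sn k) := by
    unfold ddQ; rw [hsn]; apply Nat.pow_le_pow_right (by norm_num); rw [← hP3]; exact hL'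
  have hexc : excI k = 2 ^ (8 * P + 5) := by
    unfold excI; rw [hsM, hP]
  constructor
  · -- n0 ≤ sn k
    rw [hsn]
    exact hn0T.trans (Nat.lt_two_pow_self).le
  · -- k < KQ
    rw [hsn]
    refine lt_of_lt_of_le ?_ hK'
    have h3 : su k * su k ≤ 3 * T * (3 * T) := Nat.mul_le_mul hsuT hsuT
    have e : (3 * T + 1) ^ 2 = 3 * T * (3 * T) + 6 * T + 1 := by ring
    rw [e]
    omega
  · -- depth
    refine le_trans ?_ hddn
    have h1 : (3 * sn k + 2) ^ sj k ≤ 2 ^ (4 * T ^ 2 + 2 * T) := by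
      calc (3 * sn k + 2) ^ sj k ≤ (2 ^ (4 * T + 2)) ^ sj k := Nat.pow_le_pow_left hs2 _
        _ = 2 ^ ((4 * T + 2) * sj k) := by rw [pow_mul]
        _ ≤ 2 ^ (4 * T ^ 2 + 2 * T) := Nat.pow_le_pow_right (by norm_num) hjj0
    have h3 : lenQ k * 2 ^ EQ (3 * sM k) + 1 ≤ 2 ^ (4 * P + 1) := by
      have h4 : lenQ k * 2 ^ EQ (3 * sM k) ≤ 2 ^ (3 * P) * 2 ^ P :=
        Nat.mul_le_mul hlen (Nat.pow_le_pow_right (by norm_num) (by omega))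
      rw [← pow_add, show 3 * P + P = 4 * P by ring] at h4
      have h5' : 1 ≤ 2 ^ (4 * P) := Nat.one_le_pow _ _ (by norm_num)
      rw [pow_succ]
      omega
    calc sn k * ((3 * sn k + 2) ^ sj k * (lenQ k * 2 ^ EQ (3 * sM k) + 1))
        ≤ 2 ^ (4 * T) * (2 ^ (4 * T ^ 2 + 2 * T) * 2 ^ (4 * P + 1)) :=
          Nat.mul_le_mul hsn.le (Nat.mul_le_mul h1 h3)
      _ = 2 ^ (4 * T + (4 * T ^ 2 + 2 * T + (4 * P + 1))) := by rw [← pow_add, ← pow_add]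
      _ ≤ 2 ^ (P ^ 3) := Nat.pow_le_pow_right (by norm_num) (by omega)
  · -- qb
    refine le_trans ?_ hddn
    have h1 : qb k + 1 ≤ 2 ^ (4 * T ^ 2 + 2 * T + 3) := by omega
    exact h1.trans (Nat.pow_le_pow_right (by norm_num) (by omega))
  · -- ddQ
    refine le_trans ?_ hddn
    unfold ddQ
    apply Nat.pow_le_pow_right (by norm_num)
    rw [hsM]
    omega
  · -- card
    have hn3 : 10 * P + 20 ≤ sn k / 3 := by
      rw [Nat.le_div_iff_mul_le (by norm_num), hsn, hP4]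
      exact hp3
    have c1 : (lenQ k + 2) * 2 ^ (aQ 0 (3 * sM k) + 2) ≤ 2 ^ (3 * P + 1 + 2 * P) := by
      rw [pow_add 2 (3 * P + 1)]
      refine Nat.mul_le_mul ?_ (Nat.pow_le_pow_right (by norm_num) hA)
      have : 2 ^ 1 ≤ 2 ^ (3 * P) := Nat.pow_le_pow_right (by norm_num) (by omega)
      rw [pow_succ]
      omega
    have c2 : (excI k + 1) * (qb k + 4) ≤ 2 ^ (8 * P + 6 + P) := by
      rw [hexc, pow_add 2 (8 * P + 6)]
      refine Nat.mul_le_mul ?_ (hq3.trans (Nat.pow_le_pow_right (by norm_num) (by omega)))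
      have : 1 ≤ 2 ^ (8 * P + 5) := Nat.one_le_pow _ _ (by norm_num)
      rw [pow_succ 2 (8 * P + 5)]
      omega
    have c3 : 2 ^ (3 * P + 1 + 2 * P) ≤ 2 ^ (9 * P + 6) :=
      Nat.pow_le_pow_right (by norm_num) (by omega)
    have c4 : lenQ k ≤ 2 ^ (9 * P + 6) :=
      hlen.trans (Nat.pow_le_pow_right (by norm_num) (by omega))
    have c5 : 2 ^ (8 * P + 6 + P) = 2 ^ (9 * P + 6) := by congr 1; ring
    have c6 : 2 ^ 1 ≤ 2 ^ (9 * P + 6) := Nat.pow_le_pow_right (by norm_num) (by omega)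
    calc (lenQ k + 2) * 2 ^ (aQ 0 (3 * sM k) + 2) + lenQ k + 2 + (excI k + 1) * (qb k + 4)
        ≤ 2 ^ (9 * P + 8) := by
          rw [pow_add 2 (9 * P + 6) 2]
          omega
      _ ≤ 2 ^ (sn k / 3) := Nat.pow_le_pow_right (by norm_num) (by omega)
  · -- eps
    refine hNN.trans (Nat.pow_le_pow_right (by norm_num) ?_)
    rw [hsM, ← hP]
    omega


end Pool.Agent.TD.TF
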