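import Pool.Agent.Lib_helper20.TFF.TableStep
import Pool.Agent.Lib_helper20.TFF.BS
import Pool.Agent.Lib_helper20.TFF.CA
import Pool.Agent.Lib_helper20.TFF.CB
import Pool.Agent.Lib_helper20.TFF.CC
import Pool.Agent.Lib_helper20.TFF.FQ
import Pool.Agent.Lib_helper20.TFF.NA
import Pool.Agent.Lib_helper20.TFF.NC
import Pool.Agent.Lib_helper20.MF.DEP
import Pool.Agent.Lib_helper64.TDF.Iter

/-!
# The stages one after the other
-/

set_option autoImplicit false

namespace Pool.Agent.TD.TF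

open Pool.Agent.CK Pool.Agent.TD.IS

theorem bdd_mask (M : Msk) {n0 k : ℕ} {Fm : Fam} (hF : BddQ n0 (k + 1) Fm) :
    BddM n0 k (MaskF M k Fm) := by
  intro n hn
  obtain ⟨h1, h2⟩ := hF n hn
  by_cases hk : k < KQ n
  · have e : MaskF M k Fm n = MaskC M k n (Fm n) := by unfold MaskF; rw [if_pos hk]
    rw [e]
    refine ⟨card_mask M k n (Fm n) hk h1, ?_⟩
    rintro A' ⟨A, hA, ρ, hρ, γ, hγ, r, hr, hdep, rfl⟩ x
    exact ⟨hdep x, MSK.LS.allQ_simR (M.ls (sD k) (sD (k + 1))) [] (ddQ n) (A x) (h2 A hA x).2 ρ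
      hρ.2 γ r⟩
  · have e : MaskF M k Fm n = Fm n := by unfold MaskF; rw [if_neg hk]
    obtain ⟨-, h4, -, -, h5⟩ := irrelQ (not_lt.1 hk)
    rw [e, ← h4, h5]
    exact ⟨h1, h2⟩

theorem bdd_table {t0 : ℕ → ℕ} {n0 k : ℕ} {Fm : Fam} (hN : ∀ n, n0 ≤ n → NumQ n)
    (hK : Act t0 k → NumKQ n0 k) (hF : BddM n0 k Fm) : BddQ n0 k (NextQ t0 n0 k Fm) := by
  intro n hn
  obtain ⟨h1, h2⟩ := hF n hn
  by_cases hact : Act t0 k
  · have hnum := hK hact
    have h5 : 5 ≤ sj k := hact.1
    have h2' : 2 * sj k ≤ su k := hact.2.1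
    have hcmp := card_cmpQ n0 k Fm hN h5 h2' hnum hF n
    have hdep := cmpQ_depth n0 k Fm hN hnum hF n
    by_cases hk : k < KQ n
    · have hsim := card_simQ k n (Fm n) h5 h2' hk h1
      have e : NextQ t0 n0 k Fm n = SimQ k n (Fm n) ∪ CmpQ n0 k Fm n := by
        unfold NextQ; rw [if_pos hact, if_pos hk]
      rw [e]
      have hle : n / 3 ≤ aM k n + (EQ n + LamQ n + 6) := by
        unfold aM aQ; rw [if_pos hk]; omega
      have hu := card_union hsim (card_mono hcmp (Set.Subset.refl _)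
        (Nat.pow_le_pow_right (by norm_num) hle))
      have hb : CardBd (SimQ k n (Fm n) ∪ CmpQ n0 k Fm n) (2 ^ aQ k n) := by
        refine card_mono hu (Set.Subset.refl _) ?_
        have h4 : 2 ^ (aM k n + (EQ n + LamQ n + 6)) + 1 ≤
            2 ^ (aM k n + (EQ n + LamQ n + 6) + 1) := by
          rw [pow_succ 2 (aM k n + (EQ n + LamQ n + 6))]
          have := Nat.one_le_two_pow (n := aM k n + (EQ n + LamQ n + 6))
          omega
        refine h4.trans (Nat.pow_le_pow_right (by norm_num) ?_)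
        rw [aQ_step hk]; omega
      refine ⟨hb, ?_⟩
      rintro A (hA | hA) x
      · obtain ⟨B, hB, ρ, -, r, -, rfl⟩ := hA
        exact ⟨(depth_simI _ _ _ _ _).trans (h2 B hB x).1, allQ_simI _ _ _ _ _ _ (h2 B hB x).2⟩
      · exact ⟨(hdep A hA x).1.trans (dQ_le k n).2, (hdep A hA x).2⟩
    · have hk' : KQ n ≤ k := not_lt.1 hk
      have e : NextQ t0 n0 k Fm n = Fm n ∪ CmpQ n0 k Fm n := by
        unfold NextQ; rw [if_pos hact, if_neg hk]
      have hemp : CmpQ n0 k Fm n = ∅ := by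
        apply Set.eq_empty_of_forall_notMem
        rintro A ⟨hsn, -⟩
        have := hnum.hK
        rw [← hsn] at this
        exact hk this
      rw [e, hemp, Set.union_empty, (irrelQ hk').1]
      exact ⟨h1, h2⟩
  · have e : NextQ t0 n0 k Fm n = Fm n := by unfold NextQ; rw [if_neg hact]
    rw [e]
    refine ⟨card_mono h1 (Set.Subset.refl _) (Nat.pow_le_pow_right (by norm_num) ?_), h2⟩
    by_cases hk : k < KQ n
    · rw [aQ_step hk]; omega
    · exact (irrelQ (not_lt.1 hk)).1.ge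

theorem bdd_clQ (M : Msk) {t0 : ℕ → ℕ} {n0 : ℕ} {fin : Fam} {top : ℕ}
    (hN : ∀ n, n0 ≤ n → NumQ n) (hK : ∀ k, Act t0 k → NumKQ n0 k) (hF : BddQ n0 top fin) :
    ∀ r ≤ top, BddQ n0 (top - r) (ClQ M t0 n0 fin top r) := by
  intro r
  induction r with
  | zero => intro _; exact hF
  | succ r ih =>
    intro hr
    have h := ih (by omega)
    have e : top - r = (top - (r + 1)) + 1 := by omega
    rw [e] at h
    exact bdd_table hN (hK _) (bdd_mask M h)

theorem DelM_le (k n : ℕ) : DelM k n ≤ DelQ k n := by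
  by_cases hk : k < KQ n
  · rw [DelQ_step hk]; omega
  · exact (irrelQ (not_lt.1 hk)).2.2.1.ge

/-- All stages. -/
theorem iterateQ (F : ℕ → Lang → Lang) (M : Msk) {t0 : ℕ → ℕ} {n0 Nh : ℕ} {fin : Fam} {top : ℕ}
    (hN : ∀ n, n0 ≤ n → NumQ n) (hK : ∀ k, Act t0 k → NumKQ n0 k) (hF : BddQ n0 top fin)
    (hE : ∀ r, r ≤ top → ∀ n, Nh < n → ClQ M t0 n0 fin top r n = ∅) (S : Sec) (R0 : Lang)
    (h0 : DefX n0 (DelQ 0) S (M.mx (sD 0) (orc S fun _ _ => []) R0) (ClQ M t0 n0 fin top top)) :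
    ∀ k ≤ top, ∃ (Tab : ℕ → Str → Str) (R : Lang),
      DefX n0 (DelQ k) S (M.mx (sD k) (orc S Tab) R) (ClQ M t0 n0 fin top (top - k)) ∧
      (∀ k' < k, Act t0 k' → GoalI F S k' (M.big (orc S Tab) R) Tab) ∧
      ∀ e z, (Tab e z).length ≤ alen e z := by
  intro k
  induction k with
  | zero =>
    intro _
    exact ⟨fun _ _ => [], R0, h0, fun k' hk' => absurd hk' (Nat.not_lt_zero _),
      fun e z => Nat.zero_le _⟩
  | succ k ih =>
    intro hk
    obtain ⟨Tab, R, hdef, hgoal, hlen⟩ := ih (by omega)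
    have e : top - k = (top - (k + 1)) + 1 := by omega
    have hcl : ClQ M t0 n0 fin top (top - k) =
        NextQ t0 n0 k (MaskF M k (ClQ M t0 n0 fin top (top - (k + 1)))) := by
      rw [e]
      have e2 : top - (top - (k + 1) + 1) = k := by omega
      show NextQ t0 n0 (top - (top - (k + 1) + 1)) (MaskF M (top - (top - (k + 1) + 1)) _) = _
      rw [e2]
    rw [hcl] at hdef
    have hB : BddQ n0 (k + 1) (ClQ M t0 n0 fin top (top - (k + 1))) := by
      have := bdd_clQ M hN hK hF (top - (k + 1)) (by omega)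
      have e3 : top - (top - (k + 1)) = k + 1 := by omega
      rwa [e3] at this
    have hBM := bdd_mask M hB
    -- the table
    obtain ⟨Tab', hdef', hgoal', hlen'⟩ : ∃ Tab' : ℕ → Str → Str,
        DefX n0 (DelM k) S (M.mx (sD k) (orc S Tab') R)
          (MaskF M k (ClQ M t0 n0 fin top (top - (k + 1)))) ∧
        (∀ k' < k + 1, Act t0 k' → GoalI F S k' (M.big (orc S Tab') R) Tab') ∧
        ∀ e z, (Tab' e z).length ≤ alen e z := by
      by_cases hact : Act t0 k
      · have h5 : 5 ≤ sj k := hact.1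
        have h2 : 2 * sj k ≤ su k := hact.2.1
        obtain ⟨T, hT1, hT2⟩ := table_step F M hN hact (hK k hact) hBM hdef
        refine ⟨updI Tab k T, hT1, ?_, ?_⟩
        · intro k' hk' hact'
          rcases Nat.lt_succ_iff_lt_or_eq.1 hk' with h | h
          · refine goalI_congr hact'.1 hact'.2.1 (O := M.big (orc S Tab) R) (Tab := Tab) ?_ ?_ ?_
              (hgoal k' h hact')
            · intro w hw
              exact tst_big M S Tab R k T h5 h2 w (hw.trans_le (sD_mono h.le))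
            · intro z hz
              exact (updI_low Tab k' k T h hact'.1 hact'.2.1 h5 h2 z hz).symm
            · intro w hw
              exact (updI_other_inv Tab k' k T h.ne hact'.1 hact'.2.1 h5 h2 w hw).symm
          · subst h
            exact hT2
        · intro e z
          rcases updI_length Tab k T e z with h | ⟨rfl, hz, h⟩ | ⟨rfl, hz, h⟩
          · rw [h]; exact hlen e z
          · exact h.trans (qb_le_alen k h5 h2 z hz)
          · refine h.le.trans ?_
            have h3 := (iset_length hz).1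
            have h4 : 0 < sm k := by unfold sm; positivity
            unfold alen
            calc sM k ≤ z.length + 2 := by omega
              _ ≤ (z.length + 2) ^ ((se k + 1) ^ 2) := Nat.le_self_pow (by positivity) _
      · have e4 : NextQ t0 n0 k (MaskF M k (ClQ M t0 n0 fin top (top - (k + 1)))) =
            MaskF M k (ClQ M t0 n0 fin top (top - (k + 1))) := by
          funext n
          unfold NextQ
          rw [if_neg hact]
        rw [e4] at hdef
        refine ⟨Tab, ?_, ?_, hlen⟩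
        · intro n hn A hA
          exact (Nat.mul_le_mul_right _ (DelM_le k n)).trans_lt (hdef n hn A hA)
        · intro k' hk' hact'
          rcases Nat.lt_succ_iff_lt_or_eq.1 hk' with h | h
          · exact hgoal k' h hact'
          · subst h
            exact absurd hact' hact
    -- the mask
    obtain ⟨R', hR1, hR2⟩ := mask_step M hB (hE _ (Nat.sub_le _ _)) hdef'
    refine ⟨Tab', R', hR2, ?_, hlen'⟩
    intro k' hk' hact'
    refine goalI_congr hact'.1 hact'.2.1 (O := M.big (orc S Tab') R) (Tab := Tab') ?_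
      (fun _ _ => rfl) (fun _ _ => rfl) (hgoal' k' hk' hact')
    intro w hw
    have hle : sD k' ≤ sD k := sD_mono (Nat.lt_succ_iff.1 hk')
    exact AFF.Lam_congr M.short M.P (fun _ _ => rfl) (fun u hu => (hR1 u (by omega)).symm) hw.le

/-- The construction up to a horizon `N`. -/
theorem horizonQ (F : ℕ → Lang → Lang)
    (BASE : ∀ (n0 Nh : ℕ), (∀ n, n0 ≤ n → NumN n) → ∀ Fm : Fam, Bdd n0 0 Fm →
      (∀ n, Nh < n → Fm n = ∅) → ∃ S : Sec, Def n0 0 S (orc S fun _ _ => []) Fm)
    (M : Msk) {t0 : ℕ → ℕ} {n0 : ℕ} (hN : ∀ n, n0 ≤ n → NumQ n)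
    (hK : ∀ k, Act t0 k → NumKQ n0 k) (N : ℕ) :
    ∃ (S : Sec) (Tab : ℕ → Str → Str) (R : Lang), (∀ e z, (Tab e z).length ≤ alen e z) ∧
      (∀ k < N, Act t0 k → GoalI F S k (M.big (orc S Tab) R) Tab) ∧
      ∀ n, n0 ≤ n → n ≤ N → SecQ S (M.big (orc S Tab) R) n := by
  have hfin : BddQ n0 N (FinQ N) := bdd_finQ n0 N hN N
  obtain ⟨Nh, hNh⟩ := clQ_empty M t0 n0 N N
  have hB0 : BddQ n0 0 (ClQ M t0 n0 (FinQ N) N N) := by
    have := bdd_clQ M hN hK hfin N le_rfl
    rwa [Nat.sub_self] at this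
  obtain ⟨S, hS⟩ := baseQ BASE M (fun _ => false) hN _ hB0 (hNh N le_rfl)
  obtain ⟨Tab, R, h1, h2, h3⟩ := iterateQ F M hN hK hfin hNh S (fun _ => false) hS N le_rfl
  rw [Nat.sub_self] at h1
  exact ⟨S, Tab, R, h3, h2, fun n hn hnN =>
    sec_of_def M hn hnN hN ((hN n hn).hK.trans hnN) h1⟩

end Pool.Agent.TD.TF
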