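import Pool.Agent.Lib_helper20.TF.DefsB
import Pool.Agent.Lib_helper20.MF.MLM
import Pool.Agent.Lib_helper20.MF.CSC
import Pool.Agent.Lib_helper57.AFF.Conc
import Pool.Agent.Lib_helper64.TDF.CDA
import Pool.Agent.Lib_helper64.TDF.STA

/-!
# The mask stage
-/

set_option autoImplicit false

namespace Pool.Agent.TD.TF

open Pool.Agent.CK Pool.Agent.TD.IS

theorem mst_gen (M : Msk) (s L ℓ : ℕ) : (M.ls s L).Gen ℓ (3 * (ℓ + 2) ^ 2) := by
  intro I hI hJ
  exact AFF.weight M.short M.genP s L ℓ I (fun v hv => (hI v hv).le) hJ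

theorem mst_ans (M : Msk) {s L : ℕ} (hsL : s ≤ L) (O R : Lang) (om : AFF.Cell s L → Bool) :
    (M.ls s L).ans (M.mx s O R) om = M.mx L O (AFF.ovr s L R om) := by
  funext q
  match q with
  | [] => rfl
  | false :: w => rfl
  | true :: v =>
    have h := AFF.mix_split M.T M.P O R hsL om v
    have hb : ∀ a b : Bool, AFF.b2 a = AFF.b2 b → a = b := by decide
    apply hb
    refine Eq.trans ?_ h.symm
    have hx : ∀ (a : Bool) (x : ZMod 2), AFF.b2 (xor a (MSK.tb x)) = AFF.b2 a + x := by decide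
    exact hx _ _

/-- relevance of a stage for a level -/
theorem relQ_iff (k n : ℕ) : k < KQ n ↔ sD k ≤ ddQ n := by
  have hL : LamQ n ≠ 0 := Nat.succ_ne_zero _
  unfold KQ sD ddQ su
  rw [Nat.pow_le_pow_iff_right (by norm_num : 1 < 2), ← Nat.sqrt_lt', Nat.lt_succ_iff]
  exact Nat.le_log_iff_pow_le (by norm_num) hL

theorem simC_mono {Ω X : Type} [Fintype Ω] [DecidableEq Ω] (Λ : MSK.LS Ω) (ℓ s g d : ℕ)
    {D D' : ℕ} (hD : D ≤ D') {Fm Fm' : Set (X → DT Str)} (h : Fm ⊆ Fm') :
    Λ.SimC ℓ s g d D Fm ⊆ Λ.SimC ℓ s g d D' Fm' := by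
  rintro A' ⟨A, hA, ρ, hρ, γ, hγ, r, hr, hdep, rfl⟩
  exact ⟨A, h hA, ρ, hρ, γ, hγ, r, hr, fun x => (hdep x).trans hD, rfl⟩

/-- queries of length at most `s` do not see the masks of length at least `s` -/
theorem mx_low (M : Msk) {s L : ℕ} (hsL : s ≤ L) (O R R' : Lang)
    (hR : ∀ w : Str, w.length + 2 < s → R' w = R w) (q : Str) (hq : q.length ≤ s) :
    M.mx L O R' q = M.mx s O R q := by
  match q with
  | [] => rfl
  | false :: w => rfl
  | true :: v =>
    have hv : v.length ≤ s := by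
      have : v.length + 1 ≤ s := by simpa using hq
      omega
    show AFF.mix M.T M.P L O R' (true :: v) = AFF.mix M.T M.P s O R (true :: v)
    rw [AFF.mix_full M.short M.P O R' (hv.trans hsL), AFF.mix_full M.short M.P O R hv]
    exact AFF.Lam_congr M.short M.P (fun _ _ => rfl) (fun w hw => hR w hw) hv

theorem mst_depth (k n : ℕ) (hk : k < KQ n) :
    dQ (k + 1) n + 4 * btQ n * dQ (k + 1) n ≤ dQ k n := by
  obtain ⟨L, hL⟩ : ∃ L, L = LamQ n := ⟨_, rfl⟩
  have hL1 : 1 ≤ L := by rw [hL]; exact Nat.succ_le_succ (Nat.zero_le _)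
  have e : LamQ n + (KQ n - k) * (2 * LamQ n + 8) =
      (LamQ n + (KQ n - (k + 1)) * (2 * LamQ n + 8)) + (2 * LamQ n + 8) := by
    have : KQ n - k = (KQ n - (k + 1)) + 1 := by omega
    rw [this]; ring
  have e2 : dQ k n = dQ (k + 1) n * 2 ^ (2 * L + 8) := by
    unfold dQ
    rw [e, pow_add, hL]
  have h1 : 2 ^ L + 2 ≤ 2 * 2 ^ L := by
    have : 2 ^ 1 ≤ 2 ^ L := Nat.pow_le_pow_right (by norm_num) hL1
    omega
  have h2 : btQ n ≤ 12 * 2 ^ (2 * L) := by
    unfold btQ ddQ
    rw [← hL]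
    calc 3 * (2 ^ L + 2) ^ 2 ≤ 3 * (2 * 2 ^ L) ^ 2 :=
          Nat.mul_le_mul_left _ (Nat.pow_le_pow_left h1 2)
      _ = 12 * 2 ^ (2 * L) := by rw [mul_pow, ← pow_mul, mul_comm L 2]; ring
  have h3 : 1 + 4 * btQ n ≤ 2 ^ (2 * L + 8) := by
    have h4 : 1 ≤ 2 ^ (2 * L) := Nat.one_le_two_pow
    have h5 : 2 ^ (2 * L + 8) = 256 * 2 ^ (2 * L) := by rw [pow_add]; ring
    omega
  calc dQ (k + 1) n + 4 * btQ n * dQ (k + 1) n = dQ (k + 1) n * (1 + 4 * btQ n) := by ring
    _ ≤ dQ (k + 1) n * 2 ^ (2 * L + 8) := Nat.mul_le_mul_left _ h3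
    _ = dQ k n := e2.symm

/-- The mask stage. -/
theorem mask_step (M : Msk) {n0 k Nh : ℕ} {Fm : Fam} {S : Sec} {O R : Lang}
    (hB : BddQ n0 (k + 1) Fm) (hE : ∀ n, Nh < n → Fm n = ∅)
    (hdef : DefX n0 (DelM k) S (M.mx (sD k) O R) (MaskF M k Fm)) :
    ∃ R' : Lang, (∀ w : Str, w.length + 2 < sD k → R' w = R w) ∧
      DefX n0 (DelQ (k + 1)) S (M.mx (sD (k + 1)) O R') Fm := by
  classical
  have hsL : sD k ≤ sD (k + 1) := sD_mono (Nat.le_succ k)
  have h4 : ∀ n, Fintype.card (X (2 * n)) = 4 ^ n := by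
    intro n
    rw [card_X, pow_mul]
    norm_num
  obtain ⟨om, hom⟩ := MSK.exists_good (Γ := AFF.Cell (sD k) (sD (k + 1)) → Bool) (Nh + 1)
    (ι := fun n => X (2 * n) → DT Str) (fun n => if n0 ≤ n ∧ k < KQ n then Fm n else ∅)
    (fun n => 2 ^ aQ (k + 1) n)
    (by
      intro n _
      by_cases h : n0 ≤ n ∧ k < KQ n
      · rw [if_pos h]
        exact (hB n h.1).1
      · rw [if_neg h]
        exact ⟨Set.finite_empty, by simp⟩)
    (fun n A => Finset.univ.filter fun om =>
      Fintype.card (X (2 * n)) ≤ DelQ (k + 1) n *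
        MSK.LS.hit (vv S n) A ((M.ls (sD k) (sD (k + 1))).ans (M.mx (sD k) O R) om))
    (by
      intro n _ A hA
      by_cases h : n0 ≤ n ∧ k < KQ n
      · rw [if_pos h] at hA
        refine (MSK.LS.mask_lemma (M.ls (sD k) (sD (k + 1))) (ℓ := ddQ n)
          (mst_gen M _ _ (ddQ n)) (M.mx (sD k) O R) A (dQ (k + 1) n)
          (fun x => (hB n h.1).2 A hA x) (vv S n) (DelQ (k + 1) n)
          (2 ^ aQ (k + 1) n + n + 2) ?_ ?_).le
        · exact Nat.two_pow_pos _
        · intro A' hA'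
          have h5 : A' ∈ MaskF M k Fm n := by
            unfold MaskF
            rw [if_pos h.2]
            exact simC_mono (M.ls (sD k) (sD (k + 1))) (ddQ n) (sQ k n) (gQ k n) (dQ (k + 1) n)
              (mst_depth k n h.2) (Set.singleton_subset_iff.2 hA) hA'
          have h6 := hdef n h.1 A' h5
          have h7 : DelM k n = 2 * DelQ (k + 1) n := by
            unfold DelM
            rw [if_pos h.2]
          rw [h7] at h6
          rw [h4]
          exact h6
      · rw [if_neg h] at hA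
        exact absurd hA (Set.notMem_empty _))
  refine ⟨AFF.ovr (sD k) (sD (k + 1)) R om, ?_, ?_⟩
  · intro w hw
    unfold AFF.ovr
    rw [dif_neg]
    rintro ⟨h1, _⟩
    omega
  · intro n hn A hA
    by_cases hk : k < KQ n
    · have hnN : n < Nh + 1 := by
        by_contra hcon
        rw [hE n (by omega)] at hA
        exact hA
      have h5 := hom n hnN A (by rw [if_pos ⟨hn, hk⟩]; exact hA)
      rw [Finset.mem_filter, not_and, not_le] at h5
      have h6 := h5 (Finset.mem_univ _)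
      rw [mst_ans M hsL, h4] at h6
      exact h6
    · have hlt : ddQ n < sD k := by
        by_contra hcon
        exact hk ((relQ_iff k n).2 (not_lt.1 hcon))
      have hh : hits n (vv S n) A (M.mx (sD (k + 1)) O (AFF.ovr (sD k) (sD (k + 1)) R om)) =
          hits n (vv S n) A (M.mx (sD k) O R) := by
        have h : ∀ x, (A x).eval (M.mx (sD (k + 1)) O (AFF.ovr (sD k) (sD (k + 1)) R om)) =
            (A x).eval (M.mx (sD k) O R) := by
          intro x
          apply DT.eval_congr _ _ ((hB n hn).2 A hA x).2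
          intro q hq
          refine mx_low M hsL O R _ ?_ q (by omega)
          intro w hw
          unfold AFF.ovr
          rw [dif_neg]
          rintro ⟨h1, _⟩
          omega
        unfold hits
        simp only [h]
      rw [hh]
      have h5 : A ∈ MaskF M k Fm n := by
        unfold MaskF
        rw [if_neg hk]
        exact hA
      have h6 := hdef n hn A h5
      have h7 : DelM k n = DelQ (k + 1) n := by
        unfold DelM
        rw [if_neg hk]
      rw [h7] at h6
      exact h6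

end Pool.Agent.TD.TF
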