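import Pool.Agent.Lib_helper20.TFF.NB
import Pool.Agent.Lib_helper20.TFF.HQ
import Pool.Agent.Lib_helper20.TFF.MaskStep
import Pool.Agent.Lib_helper20.TFF.Imp

/-!
# The table stage
-/

set_option autoImplicit false

namespace Pool.Agent.TD.TF

open Pool.Agent.CK Pool.Agent.TD.IS

/-- M3 for tables with inverse -/
theorem tst_mx (M : Msk) (S : Sec) (Tab : ℕ → Str → Str) (R : Lang) (k : ℕ) (T : Z k → Q k)
    (h5 : 5 ≤ sj k) (h2 : 2 * sj k ≤ su k) :
    M.mx (sD k) (orc S (updI Tab k T)) R =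
      patchI (stgQ k) (M.mx (sD k) (orc S Tab) R) T := by
  funext q
  match q with
  | [] => rfl
  | false :: w =>
    show orc S (updI Tab k T) w = patchI (stgQ k) (M.mx (sD k) (orc S Tab) R) T (false :: w)
    rw [orc_updI S Tab k T h5]
    rfl
  | true :: v =>
    show AFF.mix M.T M.P (sD k) (orc S (updI Tab k T)) R (true :: v) =
      AFF.mix M.T M.P (sD k) (orc S Tab) R (true :: v)
    exact AFF.mix_congr M.T M.P (fun w hw => orc_lowI S Tab k T h5 h2 w (by omega))
      (fun _ _ => rfl) v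

/-- the final oracle does not change on short strings -/
theorem tst_big (M : Msk) (S : Sec) (Tab : ℕ → Str → Str) (R : Lang) (k : ℕ) (T : Z k → Q k)
    (h5 : 5 ≤ sj k) (h2 : 2 * sj k ≤ su k) (w : Str) (hw : w.length < sD k) :
    M.big (orc S Tab) R w = M.big (orc S (updI Tab k T)) R w :=
  AFF.Lam_congr M.short M.P (fun u hu => (orc_lowI S Tab k T h5 h2 u (by omega)).symm)
    (fun _ _ => rfl) hw.le

theorem tst_hits_congr {n : ℕ} (v : X (2 * n) → Str) {A A' : X (2 * n) → DT Str} {O O' : Lang}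
    (h : ∀ x, (A x).eval O = (A' x).eval O') : hits n v A O = hits n v A' O' := by
  unfold hits
  simp only [h]

/-- positions of a stage are long -/
theorem tst_pos_len {k : ℕ} (h2 : 2 * sj k ≤ su k) {q : Str} {p : PosI (Z k) (Q k) (ℕ × Bool)}
    (h : (stgQ k).ps q = some p) : sD k < q.length := by
  match q with
  | [] => exact absurd h (by simp [stgQ, AFF.lp])
  | true :: v => exact absurd h (by simp [stgQ, AFF.lp])
  | false :: w =>
    have h1 : posK k w = some p := h
    have := posK_len h2 h1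
    simp only [List.length_cons]
    omega

theorem tst_irrel {k n : ℕ} (h2 : 2 * sj k ≤ su k) (hk : KQ n ≤ k) (O : Lang) (T : Z k → Q k)
    (v : X (2 * n) → Str) (A : X (2 * n) → DT Str)
    (hA : ∀ x, (A x).AllQ fun w => w.length ≤ ddQ n) :
    hits n v A (patchI (stgQ k) O T) = hits n v A O := by
  have hlt : ddQ n < sD k := by
    by_contra hcon
    have := (relQ_iff k n).2 (not_lt.1 hcon)
    omega
  refine tst_hits_congr v fun x => ?_
  apply DT.eval_congr _ _ (hA x)
  intro w hw
  cases hp : (stgQ k).ps w with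
  | none => simp only [patchI, hp]
  | some p =>
    have := tst_pos_len h2 hp
    omega

theorem tst_sT (k n : ℕ) (hn : 3 * sM k ≤ n) (hk : k < KQ n) : 2 ^ sM k ≤ sT k n := by
  have h1 : sM k ≤ aM k n := by
    unfold aM aQ
    rw [if_pos hk]
    have : sM k ≤ n / 3 := by omega
    omega
  have h2 : 2 ^ sM k ≤ 2 ^ aM k n := Nat.pow_le_pow_right (by norm_num) h1
  have h3 : 1 ≤ dQ k n := Nat.one_le_two_pow
  have h4 : 2 ^ aM k n ≤ rT k n := by unfold rT; omega
  calc 2 ^ sM k ≤ rT k n * 1 := by omega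
    _ ≤ rT k n * dQ k n := Nat.mul_le_mul_left _ h3

/-- If the whole table fits into the advice, every table is fine. -/
theorem tst_small {k n : ℕ} (hn : 3 * sM k ≤ n) (hk : k < KQ n) (O : Lang) (T : Z k → Q k)
    (Fm : Set (X (2 * n) → DT Str)) (v : X (2 * n) → Str)
    (hdef : ∀ A' ∈ SimQ k n Fm, DelQ k n * hits n v A' O < 4 ^ n)
    (A : X (2 * n) → DT Str) (hA : A ∈ Fm) :
    DelM k n * hits n v A (patchI (stgQ k) O T) < 4 ^ n := by
  classical
  let ρ : List (Z k × Q k) := (Finset.univ : Finset (Z k)).toList.map fun z => (z, T z)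
  have hρ : ρ.length ≤ sT k n := by
    have h1 : ρ.length = Fintype.card (Z k) := by
      simp [ρ]
    rw [h1]
    exact (card_Z k).trans (tst_sT k n hn hk)
  have hlook := fun z => step_lookup T (Finset.univ : Finset (Z k)).toList z (by simp)
  let q0 : Q k := ⟨[], Nat.zero_le _⟩
  have hmem : (fun x => simI (stgQ k) [] (A x) ρ (List.replicate (dQ k n) q0)) ∈
      SimQ k n Fm := ⟨A, hA, ρ, hρ, List.replicate (dQ k n) q0, List.length_replicate, rfl⟩
  have h1 := hdef _ hmem
  have h2 : hits n v (fun x => simI (stgQ k) [] (A x) ρ (List.replicate (dQ k n) q0)) O =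
      hits n v A (patchI (stgQ k) O T) :=
    tst_hits_congr v fun x => simI_full (stgQ k) [] O T (A x) ρ _ hlook
  rw [h2, DelQ_step hk, mul_assoc] at h1
  omega

/-- The empty table can be simulated. -/
theorem tst_const {k n : ℕ} (hk : k < KQ n) (O : Lang)
    (Fm : Set (X (2 * n) → DT Str)) (v : X (2 * n) → Str)
    (hdep : ∀ A ∈ Fm, ∀ x, (A x).depth ≤ dQ k n)
    (hdef : ∀ A' ∈ SimQ k n Fm, DelQ k n * hits n v A' O < 4 ^ n)
    (A : X (2 * n) → DT Str) (hA : A ∈ Fm) :
    DelM k n * hits n v A (patchI (stgQ k) O fun _ => (⟨[], Nat.zero_le _⟩ : Q k)) < 4 ^ n := by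
  let q0 : Q k := ⟨[], Nat.zero_le _⟩
  have hq0 : ∀ w l q i, (stgQ k).ps w = some (PosI.inv l q i) → q ≠ q0 := by
    intro w l q i hw
    match w with
    | [] => exact absurd hw (by simp [stgQ, AFF.lp])
    | true :: v => exact absurd hw (by simp [stgQ, AFF.lp])
    | false :: w =>
      have h1 : posK k w = some (PosI.inv l q i) := hw
      have h2 := posK_inv h1
      intro e
      rw [e] at h2
      have h3 : 0 < sM k := by unfold sM; positivity
      have h4 : q0.1.length = 0 := rfl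
      omega
  have hmem : (fun x => simI (stgQ k) [] (A x) [] (List.replicate (dQ k n) q0)) ∈
      SimQ k n Fm := ⟨A, hA, [], Nat.zero_le _, List.replicate (dQ k n) q0,
        List.length_replicate, rfl⟩
  have h1 := hdef _ hmem
  have h2 : hits n v (fun x => simI (stgQ k) [] (A x) [] (List.replicate (dQ k n) q0)) O =
      hits n v A (patchI (stgQ k) O fun _ => q0) :=
    tst_hits_congr v fun x => simI_const (stgQ k) [] O q0 hq0 (A x) [] (dQ k n)
      (by intro z q hz; simp at hz) (hdep A hA x)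
  rw [h2, DelQ_step hk, mul_assoc] at h1
  have h3 : DelM k n * hits n v A (patchI (stgQ k) O fun _ => q0) < 4 ^ n := by omega
  exact h3

theorem tst_hits (n : ℕ) (v : X (2 * n) → Str) (A : X (2 * n) → DT Str) (O : Lang) :
    (hits n v A O : ℝ) = ∑ x, ind (((A x).map fun y => y == v x).eval O) := by
  unfold hits
  rw [Finset.card_filter]
  push_cast
  refine Finset.sum_congr rfl fun x _ => ?_
  rw [DT.eval_map]
  unfold ind
  by_cases h : (A x).eval O = v x
  · rw [if_pos h, if_pos (by simpa using h)]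
  · rw [if_neg h, if_neg (by simpa using h)]

/-- the numerical heart of the table stage -/
theorem tst_num {k n : ℕ} (h13 : 13 ≤ Nat.log 2 n) (hk : k < KQ n) (hn : n < 3 * sM k)
    (heps : NQ k ≤ 2 ^ (3 * sM k)) :
    (4 : ℝ) ^ n / (4 * DelM k n) ≤ (4 ^ n / DelM k n) / (1 + 1) -
      (4 : ℝ) ^ n * (dQ k n * (1 / 2 ^ (3 * sM k) + 1 / (NQ k : ℝ))) := by
  have hDM : 0 < DelM k n := by
    unfold DelM DelQ
    rw [if_pos hk]
    positivity
  have hd : 0 < dQ k n := by unfold dQ; positivity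
  have hN0 : 8 * dQ k n * DelM k n ≤ NQ k := NQ_ge h13 hk hn
  have hNpos : 0 < NQ k := lt_of_lt_of_le (by positivity) hN0
  have h1 : (1 : ℝ) / 2 ^ (3 * sM k) ≤ 1 / (NQ k : ℝ) := by
    apply one_div_le_one_div_of_le (by exact_mod_cast hNpos)
    exact_mod_cast heps
  have h2 : (1 : ℝ) / (NQ k : ℝ) ≤ 1 / (8 * dQ k n * DelM k n) := by
    apply one_div_le_one_div_of_le (by positivity)
    exact_mod_cast hN0
  have h3 : (dQ k n : ℝ) * (1 / 2 ^ (3 * sM k) + 1 / (NQ k : ℝ)) ≤ 1 / (4 * DelM k n) := by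
    calc (dQ k n : ℝ) * (1 / 2 ^ (3 * sM k) + 1 / (NQ k : ℝ))
        ≤ dQ k n * (1 / (8 * dQ k n * DelM k n) + 1 / (8 * dQ k n * DelM k n)) := by
          apply mul_le_mul_of_nonneg_left _ (by positivity)
          linarith
      _ = 1 / (4 * DelM k n) := by
          have e1 : (dQ k n : ℝ) ≠ 0 := by exact_mod_cast hd.ne'
          have e2 : (DelM k n : ℝ) ≠ 0 := by exact_mod_cast hDM.ne'
          field_simp
          norm_num
  have h4 : (4 : ℝ) ^ n * (dQ k n * (1 / 2 ^ (3 * sM k) + 1 / (NQ k : ℝ))) ≤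
      4 ^ n * (1 / (4 * DelM k n)) := mul_le_mul_of_nonneg_left h3 (by positivity)
  have e2 : (DelM k n : ℝ) ≠ 0 := by exact_mod_cast hDM.ne'
  have e3 : (4 ^ n / (DelM k n : ℝ)) / (1 + 1) - 4 ^ n * (1 / (4 * DelM k n)) =
      4 ^ n / (4 * DelM k n) := by
    field_simp
    norm_num
  linarith

theorem tst_smooth {k : ℕ} (ν : Bool → Q k → ℝ)
    (hν : ∀ b, (∀ q, 0 ≤ ν b q) ∧ ∑ q, ν b q = 1)
    (hs : ∀ b q, ν b q ≤ 1 / 2 ^ (4 * sM k)) (κ : Z k → Bool) :
    (∀ (l : ℕ) q, ∑ z with (stgQ k).ln z = l, ν (κ z) q ≤ 1 / 2 ^ (3 * sM k)) ∧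
      (∀ z z' : Z k, z ≠ z' → ∑ q, ν (κ z) q * ν (κ z') q ≤ 1 / 2 ^ (4 * sM k)) ∧
      (Fintype.card (Z k) : ℝ) ^ 2 * (1 / 2 ^ (4 * sM k)) ≤ 1 / 2 := by
  classical
  have hZ : (Fintype.card (Z k) : ℝ) ≤ 2 ^ sM k := by exact_mod_cast card_Z k
  have hM : 1 ≤ sM k := Nat.one_le_two_pow
  refine ⟨?_, ?_, ?_⟩
  · intro l q
    calc ∑ z with (stgQ k).ln z = l, ν (κ z) q
        ≤ ∑ z with (stgQ k).ln z = l, (1 : ℝ) / 2 ^ (4 * sM k) :=
          Finset.sum_le_sum fun z _ => hs _ _
      _ = ((Finset.univ.filter fun z : Z k => (stgQ k).ln z = l).card : ℝ) *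
            (1 / 2 ^ (4 * sM k)) := by
          rw [Finset.sum_const, nsmul_eq_mul]
      _ ≤ 2 ^ sM k * (1 / 2 ^ (4 * sM k)) := by
          apply mul_le_mul_of_nonneg_right _ (by positivity)
          refine le_trans ?_ hZ
          exact_mod_cast Finset.card_le_univ _
      _ = 1 / 2 ^ (3 * sM k) := by
          have e : (2 : ℝ) ^ (4 * sM k) = 2 ^ sM k * 2 ^ (3 * sM k) := by
            rw [← pow_add]; congr 1; ring
          rw [e]
          field_simp
  · intro z z' _
    calc ∑ q, ν (κ z) q * ν (κ z') q ≤ ∑ q, ν (κ z) q * (1 / 2 ^ (4 * sM k)) :=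
          Finset.sum_le_sum fun q _ => mul_le_mul_of_nonneg_left (hs _ _) ((hν _).1 q)
      _ = 1 / 2 ^ (4 * sM k) := by rw [← Finset.sum_mul, (hν _).2, one_mul]
  · calc (Fintype.card (Z k) : ℝ) ^ 2 * (1 / 2 ^ (4 * sM k))
        ≤ (2 ^ sM k) ^ 2 * (1 / 2 ^ (4 * sM k)) := by
          apply mul_le_mul_of_nonneg_right _ (by positivity)
          exact pow_le_pow_left₀ (by positivity) hZ 2
      _ = 1 / 2 ^ (2 * sM k) := by
          have e : (2 : ℝ) ^ (4 * sM k) = (2 ^ sM k) ^ 2 * 2 ^ (2 * sM k) := by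
            rw [← pow_mul, ← pow_add]; congr 1; ring
          rw [e]
          field_simp
      _ ≤ 1 / 2 := by
          apply one_div_le_one_div_of_le (by norm_num)
          calc (2 : ℝ) = 2 ^ 1 := by norm_num
            _ ≤ 2 ^ (2 * sM k) := pow_le_pow_right₀ (by norm_num) (by omega)

theorem mem_nextQ_sim {t0 : ℕ → ℕ} {n0 k n : ℕ} {Fm : Fam} (hact : Act t0 k) (hk : k < KQ n)
    {A : X (2 * n) → DT Str} (hA : A ∈ SimQ k n (Fm n)) : A ∈ NextQ t0 n0 k Fm n := by
  unfold NextQ
  rw [if_pos hact, if_pos hk]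
  exact Or.inl hA

theorem mem_nextQ_irrel {t0 : ℕ → ℕ} {n0 k n : ℕ} {Fm : Fam} (hact : Act t0 k) (hk : KQ n ≤ k)
    {A : X (2 * n) → DT Str} (hA : A ∈ Fm n) : A ∈ NextQ t0 n0 k Fm n := by
  unfold NextQ
  rw [if_pos hact, if_neg (by omega)]
  exact Or.inl hA

theorem mem_nextQ_cmp {t0 : ℕ → ℕ} {n0 k n : ℕ} {Fm : Fam} (hact : Act t0 k)
    {A : X (2 * n) → DT Str} (hA : A ∈ CmpQ n0 k Fm n) : A ∈ NextQ t0 n0 k Fm n := by
  unfold NextQ
  rw [if_pos hact]
  exact Or.inr hA

/-- The table stage. -/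
theorem table_step (F : ℕ → Lang → Lang) (M : Msk) {t0 : ℕ → ℕ} {n0 k : ℕ} {Fm : Fam} {S : Sec}
    {Tab : ℕ → Str → Str} {R : Lang} (hN : ∀ n, n0 ≤ n → NumQ n) (hact : Act t0 k)
    (hK : NumKQ n0 k) (hF : BddM n0 k Fm)
    (hdef : DefX n0 (DelQ k) S (M.mx (sD k) (orc S Tab) R) (NextQ t0 n0 k Fm)) :
    ∃ T : Z k → Q k, DefX n0 (DelM k) S (M.mx (sD k) (orc S (updI Tab k T)) R) Fm ∧
      GoalI F S k (M.big (orc S (updI Tab k T)) R) (updI Tab k T) := by
  classical
  have h5 : 5 ≤ sj k := hact.1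
  have h2 : 2 * sj k ≤ su k := hact.2.1
  set O := M.mx (sD k) (orc S Tab) R with hO
  set Bg := M.big (orc S Tab) R with hBg
  have hlow : ∀ T : Z k → Q k, ∀ w : Str, w.length < sD k →
      Bg w = M.big (orc S (updI Tab k T)) R w := fun T w hw => tst_big M S Tab R k T h5 h2 w hw
  -- a table for which the levels `n < 3 * sM k` are fine
  have main : ∀ T : Z k → Q k, (∀ n, n0 ≤ n → n < 3 * sM k → k < KQ n → ∀ A ∈ Fm n,
      DelM k n * hits n (vv S n) A (patchI (stgQ k) O T) < 4 ^ n) →
      DefX n0 (DelM k) S (M.mx (sD k) (orc S (updI Tab k T)) R) Fm := by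
    intro T hT n hn A hA
    rw [tst_mx M S Tab R k T h5 h2]
    by_cases hk : k < KQ n
    · by_cases hM : n < 3 * sM k
      · exact hT n hn hM hk A hA
      · exact tst_small (not_lt.1 hM) hk O T (Fm n) (vv S n)
          (fun A' hA' => hdef n hn A' (mem_nextQ_sim hact hk hA')) A hA
    · rw [tst_irrel h2 (not_lt.1 hk) _ T (vv S n) A fun x => ((hF n hn).2 A hA x).2]
      have h1 := hdef n hn A (mem_nextQ_irrel hact (not_lt.1 hk) hA)
      rw [(irrelQ (not_lt.1 hk)).2.2.1] at h1
      exact h1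
  -- the first two goals
  have goal12 : ∀ T : Z k → Q k,
      (∀ z ∈ ZSet k, (updI Tab k T (se k) z).length ≤ qb k) ∧
      (∀ w ∈ ISet k, updI Tab k T (se k + 1) w = invTab (updI Tab k T) k w) := by
    intro T
    refine ⟨fun z hz => ?_, fun w hw => updI_inv Tab k T w hw⟩
    rw [updI_self Tab k T ⟨z, hz⟩]
    exact (T ⟨z, hz⟩).2
  by_cases hcor : CorrW F S k Bg
  · -- the reduction is correct: hard core
    obtain ⟨Av, hAv1, hAv2⟩ := avoid_card Tab k
    obtain ⟨ν, hν, hc, hsm, hD⟩ := hardpairQ M n0 k h5 h2 Fm S (orc S Tab) R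
      (fun q => EL F (iC (sj k)) Bg q) hcor Av hAv1
      (fun A hA => hdef (sn k) hK.hn0 A (mem_nextQ_cmp hact hA))
    set κ : Z k → Bool := fun z => EL F (iN (sj k)) Bg z.1 with hκ
    obtain ⟨hs1, hs2, hs3⟩ := tst_smooth ν hν hsm κ
    have hne : ∀ n, n0 ≤ n → ∀ x : X (2 * n), (([] : Str) == vv S n x) = false := by
      intro n hn x
      have h16 := (hN n hn).old.h16
      have hl := vv_length S n x
      simp only [beq_eq_false_iff_ne, ne_eq]
      intro e
      rw [← e] at hl
      simp at hl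
      omega
    obtain ⟨T, hT1, hT2, hT3⟩ := table_stage (stgQ k) O ν hν κ (1 / 2 ^ (3 * sM k))
      (1 / (NQ k : ℝ)) (1 / 2 ^ (4 * sM k)) (by positivity) (by positivity) (by positivity)
      hs1 hs2 hs3 (3 * sM k) (Xf := fun n => X (2 * n)) (α := fun n => X (2 * n) → DT Str)
      (fun n => if n0 ≤ n ∧ k < KQ n then Fm n else ∅)
      (fun n A x => (A x).map fun y => y == vv S n x) (fun n => 2 ^ aM k n) (fun n => dQ k n)
      (fun n => rT k n) (fun n => 4 ^ n / DelM k n) (fun _ => 1)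
      (by
        intro n _
        by_cases h : n0 ≤ n ∧ k < KQ n
        · rw [if_pos h]
          exact (hF n h.1).1
        · rw [if_neg h]
          exact ⟨Set.finite_empty, by simp⟩)
      (by
        intro n _ A hA x
        by_cases h : n0 ≤ n ∧ k < KQ n
        · rw [if_pos h] at hA
          rw [DT.depth_map]
          exact ((hF n h.1).2 A hA x).1
        · rw [if_neg h] at hA
          exact absurd hA (Set.notMem_empty _))
      (by intro n _; norm_num)
      (by
        intro n _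
        unfold rT
        rw [show (1 : ℝ) + 1 = 2 by norm_num]
        exact pow_lt_pow_right₀ (by norm_num) (by omega))
      (by
        intro n hn A hA x ρ pre post hρ hpre hpost
        by_cases h : n0 ≤ n ∧ k < KQ n
        · rw [if_pos h] at hA
          have h3 := hD ⟨A x, vv S n x, ρ, pre, post⟩
            ⟨n, h.1, hn, h.2, ⟨A, hA, x, rfl⟩, vv_length S n x, hρ, hpre, hpost⟩
          have e : ∀ q, treeQ (⟨A x, vv S n x, ρ, pre, post⟩ : Tst k) q =
              simI (stgQ k) false ((A x).map fun y => y == vv S n x) ρ (pre ++ q :: post) := by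
            intro q
            unfold treeQ
            rw [simI_map, hne n h.1 x]
          simp only [e] at h3
          exact h3
        · rw [if_neg h] at hA
          exact absurd hA (Set.notMem_empty _))
      (by
        intro n hn A hA ρ r hρ hr
        by_cases h : n0 ≤ n ∧ k < KQ n
        · rw [if_pos h] at hA
          have h3 := hdef n h.1 _ (mem_nextQ_sim (n0 := n0) hact h.2 ⟨A, hA, ρ, hρ, r, hr, rfl⟩)
          rw [DelQ_step h.2] at h3
          have e : ∑ x, ind ((simI (stgQ k) false ((A x).map fun y => y == vv S n x) ρ r).eval O)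
              = (hits n (vv S n) (fun x => simI (stgQ k) [] (A x) ρ r) O : ℝ) := by
            rw [tst_hits]
            refine Finset.sum_congr rfl fun x _ => ?_
            rw [simI_map, hne n h.1 x]
          have hcard : (Fintype.card (X (2 * n)) : ℝ) = 4 ^ n := by
            rw [card_X, pow_mul]
            norm_num
          have hDM : 0 < DelM k n := by
            unfold DelM DelQ
            rw [if_pos h.2]
            positivity
          show ∑ x, ind ((simI (stgQ k) false ((A x).map fun y => y == vv S n x) ρ r).eval O) <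
            4 ^ n / (DelM k n : ℝ) / (1 + 1) - Fintype.card (X (2 * n)) *
              (dQ k n * (1 / 2 ^ (3 * sM k) + 1 / (NQ k : ℝ)))
          rw [e, hcard]
          refine lt_of_lt_of_le ?_ (tst_num (hN n h.1).h13 h.2 hn hK.heps)
          rw [lt_div_iff₀ (by positivity)]
          have h4 : ((4 * DelM k n *
              hits n (vv S n) (fun x => simI (stgQ k) [] (A x) ρ r) O : ℕ) : ℝ) < ((4 ^ n : ℕ) : ℝ) := by
            exact_mod_cast h3
          push_cast at h4
          linarith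
        · rw [if_neg h] at hA
          exact absurd hA (Set.notMem_empty _))
    refine ⟨T, main T ?_, ?_⟩
    · intro n hn hM hk A hA
      have h := hT3 n hM A (by rw [if_pos ⟨hn, hk⟩]; exact hA)
      rw [← tst_hits] at h
      have hDM : 0 < DelM k n := by
        unfold DelM DelQ
        rw [if_pos hk]
        positivity
      rw [lt_div_iff₀ (by exact_mod_cast hDM)] at h
      have h' : ((DelM k n * hits n (vv S n) A (patchI (stgQ k) O T) : ℕ) : ℝ) <
          ((4 ^ n : ℕ) : ℝ) := by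
        push_cast
        linarith
      exact_mod_cast h'
    · refine ⟨(goal12 T).1, (goal12 T).2, fun _ z hz => ?_⟩
      have hTz := hc _ _ (hT1 ⟨z, hz⟩)
      have hav := hAv2 _ hTz.2
      rw [updI_self Tab k T ⟨z, hz⟩]
      refine ⟨?_, hav.1, ?_⟩
      · rw [← elC_congr F h5 h2 (hlow T) _ (T ⟨z, hz⟩).2, ← elN_congr F h5 h2 (hlow T) z hz]
        exact hTz.1
      · intro z' hz' he
        by_cases hz2 : sm k ≤ z'.length + 2
        · rw [updI_self Tab k T ⟨z', ⟨hz2, hz'⟩⟩] at he
          have h6 := hT2 (Subtype.ext he)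
          exact congrArg Subtype.val h6
        · rw [updI_short Tab k T z' (by omega)] at he
          exact absurd he (hav.2 z' (by omega))
  · -- the reduction is not correct: empty table
    refine ⟨fun _ => ⟨[], Nat.zero_le _⟩, main _ ?_, (goal12 _).1, (goal12 _).2, ?_⟩
    · intro n hn hM hk A hA
      exact tst_const hk O (Fm n) (vv S n) (fun A hA x => ((hF n hn).2 A hA x).1)
        (fun A' hA' => hdef n hn A' (mem_nextQ_sim hact hk hA')) A hA
    · intro h
      exact absurd ((corrW_congr h5 h2 (hlow fun _ => ⟨[], Nat.zero_le _⟩)).2 h) hcor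

end Pool.Agent.TD.TF
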